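import Pool.Agent.Lib.MP_c07d40_pr.Cycles

/-!
Short codes determining all rooted neighbourhoods of radius one and two.
-/

namespace Pool.Agent.Lib.MP_c07d40_pr

open Finset
open scoped Classical

theorem rootedIso_of_maps {V V' T : Type} {G : SimpleGraph V} {G' : SimpleGraph V'} {r : ℕ}
    {v : V} {v' : V'} (π : T → V) (π' : T → V') (t₀ : T) (h₀ : π t₀ = v) (h₀' : π' t₀ = v')
    (hr : ∀ w, w ∈ nbhdSet G r v ↔ ∃ t, π t = w)
    (hr' : ∀ w, w ∈ nbhdSet G' r v' ↔ ∃ t, π' t = w)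
    (he : ∀ s t, π s = π t ↔ π' s = π' t)
    (ha : ∀ s t, G.Adj (π s) (π t) ↔ G'.Adj (π' s) (π' t)) :
    RootedNbhdIso G G' r v v' := by
  have : Nonempty T := ⟨t₀⟩
  choose! g hg using fun w (hw : w ∈ nbhdSet G r v) => (hr w).1 hw
  choose! g' hg' using fun w (hw : w ∈ nbhdSet G' r v') => (hr' w).1 hw
  let e : nbhdSet G r v ≃ nbhdSet G' r v' :=
    { toFun := fun x => ⟨π' (g x), (hr' _).2 ⟨_, rfl⟩⟩
      invFun := fun y => ⟨π (g' y), (hr _).2 ⟨_, rfl⟩⟩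
      left_inv := by
        intro x
        apply Subtype.ext
        have h1 := hg' (π' (g x)) ((hr' _).2 ⟨_, rfl⟩)
        exact ((he _ _).2 h1).trans (hg _ x.2)
      right_inv := by
        intro y
        apply Subtype.ext
        have h1 := hg (π (g' y)) ((hr _).2 ⟨_, rfl⟩)
        exact ((he _ _).1 h1).trans (hg' _ y.2) }
  refine ⟨⟨e, ?_⟩, ?_⟩
  · intro x y
    change G'.Adj (π' (g x)) (π' (g y)) ↔ G.Adj x y
    rw [← ha, hg _ x.2, hg _ y.2]
  · apply Subtype.ext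
    change π' (g v) = v'
    rw [← h₀', ← he, hg _ (self_mem_nbhdSet G r v), h₀]

theorem mem_nbhdSet_one {V : Type} {G : SimpleGraph V} {v w : V} :
    w ∈ nbhdSet G 1 v ↔ w = v ∨ G.Adj v w := by
  simp only [nbhdSet, Set.mem_ofPred_eq, Nat.cast_one, SimpleGraph.edist_le_one_iff_adj_or_eq]
  tauto

theorem mem_nbhdSet_two {V : Type} {G : SimpleGraph V} {v w : V} :
    w ∈ nbhdSet G 2 v ↔ w = v ∨ G.Adj v w ∨ ∃ a, G.Adj v a ∧ G.Adj a w := by
  simp only [nbhdSet, Set.mem_ofPred_eq, Nat.cast_ofNat]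
  rw [← not_lt, SimpleGraph.two_lt_edist_iff]
  simp only [Set.eq_empty_iff_forall_notMem, SimpleGraph.mem_commonNeighbors]
  constructor
  · intro h
    by_contra h'
    push Not at h'
    exact h ⟨fun h => h'.1 h.symm, h'.2.1, fun a ha => h'.2.2 a ha.1 ha.2.symm⟩
  · rintro (rfl | h | ⟨a, h1, h2⟩) h'
    · exact h'.1 rfl
    · exact h'.2.1 h
    · exact h'.2.2 a ⟨h1, h2.symm⟩

variable {V : Type} [Fintype V]

/-- The code for radius one. -/
theorem exists_code_one (d : ℕ) :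
    ∃ code : SimpleGraph V → Finset (V × Fin d × Fin d),
      (∀ G G', IsReg G d → IsReg G' d → code G = code G' → ∀ v, RootedNbhdIso G G' 1 v v) ∧
      (∀ G, IsReg G d → (code G).card ≤ (c3 G).card) := by
  choose e1 e2 he using fun G : SimpleGraph V => exists_isEnum G d
  refine ⟨fun G => univ.filter (fun p => G.Adj (e1 G p.1 p.2.1) (e1 G p.1 p.2.2)), ?_, ?_⟩
  · intro G G' hG hG' hc v
    have hE := he G hG
    have hE' := he G' hG'
    have hc' : ∀ i j, G.Adj (e1 G v i) (e1 G v j) ↔ G'.Adj (e1 G' v i) (e1 G' v j) := by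
      intro i j
      have := congrArg (fun s => (v, i, j) ∈ s) hc
      simpa using this
    have key : ∀ (G : SimpleGraph V) (hE : IsEnum G (e1 G) (e2 G)),
        (∀ w, w ∈ nbhdSet G 1 v ↔ ∃ t : Option (Fin d), t.elim v (e1 G v) = w) ∧
        (∀ s t : Option (Fin d), s.elim v (e1 G v) = t.elim v (e1 G v) ↔ s = t) ∧
        (∀ i, G.Adj v (e1 G v i)) := by
      intro G hE
      have h1 : ∀ i, G.Adj v (e1 G v i) := fun i => (hE.adj1 _ _).2 ⟨i, rfl⟩
      refine ⟨?_, ?_, h1⟩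
      · intro w
        rw [mem_nbhdSet_one, hE.adj1, Option.exists]
        simp [eq_comm]
      · rintro (_ | i) (_ | j)
        · simp
        · simpa using (h1 j).ne
        · simpa using (h1 i).ne'
        · simpa using (hE.inj1 v).eq_iff
    obtain ⟨k1, k2, k3⟩ := key G hE
    obtain ⟨k1', k2', k3'⟩ := key G' hE'
    refine rootedIso_of_maps (fun t : Option (Fin d) => t.elim v (e1 G v))
      (fun t : Option (Fin d) => t.elim v (e1 G' v)) none rfl rfl k1 k1' ?_ ?_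
    · intro s t
      rw [k2, k2']
    · rintro (_ | i) (_ | j)
      · simp
      · simp [k3, k3']
      · simp [(k3 i).symm, (k3' i).symm]
      · simpa using hc' i j
  · intro G hG
    have hE := he G hG
    apply card_le_card_of_injOn (fun p => (p.1, e1 G p.1 p.2.1, e1 G p.1 p.2.2))
    · rintro ⟨v, i, j⟩ h
      simp only [coe_filter, mem_univ, true_and, Set.mem_ofPred_eq, c3] at h ⊢
      exact ⟨(hE.adj1 _ _).2 ⟨i, rfl⟩, (hE.adj1 _ _).2 ⟨j, rfl⟩, h⟩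
    · rintro ⟨v, i, j⟩ _ ⟨v', i', j'⟩ _ h
      simp only [Prod.mk.injEq] at h
      obtain ⟨rfl, h1, h2⟩ := h
      rw [hE.inj1 v h1, hE.inj1 v h2]

/-- the index tree of depth two mapped to the graph -/
def piTwo {d : ℕ} (e1 : V → Fin d → V) (e2 : V → V → Fin (d - 1) → V) (v : V) :
    Option (Fin d ⊕ Fin d × Fin (d - 1)) → V
  | none => v
  | some (Sum.inl i) => e1 v i
  | some (Sum.inr (i, j)) => e2 v (e1 v i) j

omit [Fintype V] in
theorem IsEnum.facts {G : SimpleGraph V} {d : ℕ} {e1 : V → Fin d → V}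
    {e2 : V → V → Fin (d - 1) → V} (hE : IsEnum G e1 e2) (v : V) :
    (∀ i, G.Adj v (e1 v i)) ∧ (∀ i j, G.Adj (e1 v i) (e2 v (e1 v i) j)) ∧
    (∀ i j, e2 v (e1 v i) j ≠ v) ∧
    (∀ i w, w ≠ v → (G.Adj (e1 v i) w ↔ ∃ j, e2 v (e1 v i) j = w)) := by
  have h1 : ∀ i, G.Adj v (e1 v i) := fun i => (hE.adj1 _ _).2 ⟨i, rfl⟩
  refine ⟨h1, fun i j => ((hE.adj2 v _ (h1 i) _).2 ⟨j, rfl⟩).1,
    fun i j => ((hE.adj2 v _ (h1 i) _).2 ⟨j, rfl⟩).2, fun i w hw => ?_⟩
  rw [← hE.adj2 v _ (h1 i)]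
  tauto

omit [Fintype V] in
theorem IsEnum.range_piTwo {G : SimpleGraph V} {d : ℕ} {e1 : V → Fin d → V}
    {e2 : V → V → Fin (d - 1) → V} (hE : IsEnum G e1 e2) (v w : V) :
    w ∈ nbhdSet G 2 v ↔ ∃ t, piTwo e1 e2 v t = w := by
  obtain ⟨f1, f2, f3, f4⟩ := hE.facts v
  rw [mem_nbhdSet_two]
  constructor
  · rintro (rfl | h | ⟨a, h1, h2⟩)
    · exact ⟨none, rfl⟩
    · obtain ⟨i, rfl⟩ := (hE.adj1 _ _).1 h
      exact ⟨some (Sum.inl i), rfl⟩
    · by_cases hw : w = v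
      · exact ⟨none, hw.symm⟩
      · obtain ⟨i, rfl⟩ := (hE.adj1 _ _).1 h1
        obtain ⟨j, rfl⟩ := (f4 i w hw).1 h2
        exact ⟨some (Sum.inr (i, j)), rfl⟩
  · rintro ⟨_ | i | ⟨i, j⟩, rfl⟩
    · exact Or.inl rfl
    · exact Or.inr (Or.inl (f1 i))
    · exact Or.inr (Or.inr ⟨_, f1 i, f2 i j⟩)

omit [Fintype V] in
theorem rootedIso_two {G G' : SimpleGraph V} {d : ℕ} {e1 e1' : V → Fin d → V}
    {e2 e2' : V → V → Fin (d - 1) → V} (hE : IsEnum G e1 e2) (hE' : IsEnum G' e1' e2') (v : V)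
    (h1 : ∀ i i' j, e1 v i = e2 v (e1 v i') j ↔ e1' v i = e2' v (e1' v i') j)
    (h2 : ∀ i j i' j', i ≠ i' →
      (e2 v (e1 v i) j = e2 v (e1 v i') j' ↔ e2' v (e1' v i) j = e2' v (e1' v i') j'))
    (h3 : ∀ i j i' j',
      (G.Adj (e2 v (e1 v i) j) (e2 v (e1 v i') j') ∧ e2 v (e1 v i) j ≠ e1 v i' ∧
        e2 v (e1 v i') j' ≠ e1 v i) ↔
      (G'.Adj (e2' v (e1' v i) j) (e2' v (e1' v i') j') ∧ e2' v (e1' v i) j ≠ e1' v i' ∧
        e2' v (e1' v i') j' ≠ e1' v i)) :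
    RootedNbhdIso G G' 2 v v := by
  obtain ⟨f1, f2, f3, f4⟩ := hE.facts v
  obtain ⟨f1', f2', f3', f4'⟩ := hE'.facts v
  have h2' : ∀ i j i' j',
      (e2 v (e1 v i) j = e2 v (e1 v i') j' ↔ e2' v (e1' v i) j = e2' v (e1' v i') j') := by
    intro i j i' j'
    by_cases h : i = i'
    · subst h
      rw [(hE.inj2 v _ (f1 i)).eq_iff, (hE'.inj2 v _ (f1' i)).eq_iff]
    · exact h2 i j i' j' h
  have a02 : ∀ i j, G.Adj v (e2 v (e1 v i) j) ↔ G'.Adj v (e2' v (e1' v i) j) := by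
    intro i j
    rw [hE.adj1, hE'.adj1]
    exact exists_congr (fun i' => h1 i' i j)
  have a11 : ∀ i i', G.Adj (e1 v i) (e1 v i') ↔ G'.Adj (e1' v i) (e1' v i') := by
    intro i i'
    rw [f4 i _ (f1 i').ne', f4' i _ (f1' i').ne']
    exact exists_congr (fun j => by rw [eq_comm, h1, eq_comm])
  have a12 : ∀ i i' j, G.Adj (e1 v i) (e2 v (e1 v i') j) ↔
      G'.Adj (e1' v i) (e2' v (e1' v i') j) := by
    intro i i' j
    rw [f4 i _ (f3 i' j), f4' i _ (f3' i' j)]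
    exact exists_congr (fun j' => h2' _ _ _ _)
  have a22 : ∀ i j i' j', G.Adj (e2 v (e1 v i) j) (e2 v (e1 v i') j') ↔
      G'.Adj (e2' v (e1' v i) j) (e2' v (e1' v i') j') := by
    intro i j i' j'
    by_cases c1 : e1 v i' = e2 v (e1 v i) j
    · have c1' := (h1 _ _ _).1 c1
      rw [← c1, ← c1']
      exact iff_of_true (f2 _ _) (f2' _ _)
    by_cases c2 : e1 v i = e2 v (e1 v i') j'
    · have c2' := (h1 _ _ _).1 c2
      rw [← c2, ← c2']
      exact iff_of_true (f2 _ _).symm (f2' _ _).symm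
    have c1' := mt (h1 _ _ _).2 c1
    have c2' := mt (h1 _ _ _).2 c2
    have := h3 i j i' j'
    constructor
    · intro h
      exact (this.1 ⟨h, Ne.symm c1, Ne.symm c2⟩).1
    · intro h
      exact (this.2 ⟨h, Ne.symm c1', Ne.symm c2'⟩).1
  refine rootedIso_of_maps (piTwo e1 e2 v) (piTwo e1' e2' v) none rfl rfl
    (hE.range_piTwo v) (hE'.range_piTwo v) ?_ ?_
  · rintro (_ | i | ⟨i, j⟩) (_ | i' | ⟨i', j'⟩) <;> simp only [piTwo]
    · exact iff_of_false (f1 _).ne (f1' _).ne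
    · exact iff_of_false (f3 _ _).symm (f3' _ _).symm
    · exact iff_of_false (f1 _).ne' (f1' _).ne'
    · rw [(hE.inj1 v).eq_iff, (hE'.inj1 v).eq_iff]
    · exact h1 _ _ _
    · exact iff_of_false (f3 _ _) (f3' _ _)
    · rw [eq_comm, h1, eq_comm]
    · exact h2' _ _ _ _
  · rintro (_ | i | ⟨i, j⟩) (_ | i' | ⟨i', j'⟩) <;> simp only [piTwo]
    · simp
    · exact iff_of_true (f1 _) (f1' _)
    · exact a02 _ _
    · exact iff_of_true (f1 _).symm (f1' _).symm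
    · exact a11 _ _
    · exact a12 _ _ _
    · rw [G.adj_comm, G'.adj_comm]; exact a02 _ _
    · rw [G.adj_comm, G'.adj_comm]; exact a12 _ _ _
    · exact a22 _ _ _ _

/-- The code for radius two. -/
theorem exists_code_two (d : ℕ) :
    ∃ code : SimpleGraph V → Finset ((V × Fin d × Fin d × Fin (d - 1)) ⊕
        (V × Fin d × Fin (d - 1) × Fin d × Fin (d - 1)) ⊕
        (V × Fin d × Fin (d - 1) × Fin d × Fin (d - 1))),
      (∀ G G', IsReg G d → IsReg G' d → code G = code G' → ∀ v, RootedNbhdIso G G' 2 v v) ∧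
      (∀ G, IsReg G d → (code G).card ≤ (c3 G).card + ((c4 G).card + (c5 G).card)) := by
  choose e1 e2 he using fun G : SimpleGraph V => exists_isEnum G d
  let X1 : SimpleGraph V → Finset (V × Fin d × Fin d × Fin (d - 1)) := fun G =>
    univ.filter (fun p => e1 G p.1 p.2.1 = e2 G p.1 (e1 G p.1 p.2.2.1) p.2.2.2)
  let X2 : SimpleGraph V → Finset (V × Fin d × Fin (d - 1) × Fin d × Fin (d - 1)) := fun G =>
    univ.filter (fun p => p.2.1 ≠ p.2.2.2.1 ∧
      e2 G p.1 (e1 G p.1 p.2.1) p.2.2.1 = e2 G p.1 (e1 G p.1 p.2.2.2.1) p.2.2.2.2)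
  let X3 : SimpleGraph V → Finset (V × Fin d × Fin (d - 1) × Fin d × Fin (d - 1)) := fun G =>
    univ.filter (fun p =>
      G.Adj (e2 G p.1 (e1 G p.1 p.2.1) p.2.2.1) (e2 G p.1 (e1 G p.1 p.2.2.2.1) p.2.2.2.2) ∧
      e2 G p.1 (e1 G p.1 p.2.1) p.2.2.1 ≠ e1 G p.1 p.2.2.2.1 ∧
      e2 G p.1 (e1 G p.1 p.2.2.2.1) p.2.2.2.2 ≠ e1 G p.1 p.2.1)
  refine ⟨fun G => (X1 G).disjSum ((X2 G).disjSum (X3 G)), ?_, ?_⟩
  · intro G G' hG hG' hc v
    refine rootedIso_two (he G hG) (he G' hG') v ?_ ?_ ?_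
    · intro i i' j
      have := congrArg (fun s => Sum.inl (v, i, i', j) ∈ s) hc
      simpa [X1] using this
    · intro i j i' j' hi
      have := congrArg (fun s => Sum.inr (Sum.inl (v, i, j, i', j')) ∈ s) hc
      simpa [X2, hi] using this
    · intro i j i' j'
      have := congrArg (fun s => Sum.inr (Sum.inr (v, i, j, i', j')) ∈ s) hc
      simpa [X3] using this
  · intro G hG
    have hE := he G hG
    rw [card_disjSum, card_disjSum]
    refine Nat.add_le_add ?_ (Nat.add_le_add ?_ ?_)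
    · apply card_le_card_of_injOn (fun p => (p.1, e1 G p.1 p.2.2.1, e1 G p.1 p.2.1))
      · rintro ⟨v, i, i', j⟩ h
        obtain ⟨f1, f2, f3, f4⟩ := hE.facts v
        simp only [X1, coe_filter, mem_univ, true_and, Set.mem_ofPred_eq, c3] at h ⊢
        refine ⟨f1 _, f1 _, ?_⟩
        rw [h]
        exact f2 _ _
      · rintro ⟨v, i, i', j⟩ h1 ⟨w, k, k', l⟩ h2 h
        simp only [Prod.mk.injEq] at h
        obtain ⟨rfl, h3, h4⟩ := h
        obtain ⟨f1, f2, f3, f4⟩ := hE.facts v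
        obtain rfl := hE.inj1 v h3
        obtain rfl := hE.inj1 v h4
        simp only [X1, coe_filter, mem_univ, true_and, Set.mem_ofPred_eq] at h1 h2
        obtain rfl := hE.inj2 v _ (f1 _) (h1.symm.trans h2)
        rfl
    · apply card_le_card_of_injOn (fun p => (p.1, e1 G p.1 p.2.1, e1 G p.1 p.2.2.2.1,
        e2 G p.1 (e1 G p.1 p.2.1) p.2.2.1))
      · rintro ⟨v, i, j, i', j'⟩ h
        obtain ⟨f1, f2, f3, f4⟩ := hE.facts v
        simp only [X2, coe_filter, mem_univ, true_and, Set.mem_ofPred_eq, c4] at h ⊢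
        refine ⟨f1 _, f1 _, f2 _ _, ?_, fun h' => h.1 (hE.inj1 v h'), f3 _ _⟩
        rw [h.2]
        exact f2 _ _
      · rintro ⟨v, i, j, i', j'⟩ h1 ⟨w, k, l, k', l'⟩ h2 h
        simp only [Prod.mk.injEq] at h
        obtain ⟨rfl, h3, h4, h5⟩ := h
        obtain ⟨f1, f2, f3, f4⟩ := hE.facts v
        obtain rfl := hE.inj1 v h3
        obtain rfl := hE.inj1 v h4
        obtain rfl := hE.inj2 v _ (f1 _) h5
        simp only [X2, coe_filter, mem_univ, true_and, Set.mem_ofPred_eq] at h1 h2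
        obtain rfl := hE.inj2 v _ (f1 _) (h1.2.symm.trans h2.2)
        rfl
    · apply card_le_card_of_injOn (fun p => (p.1, e1 G p.1 p.2.1, e1 G p.1 p.2.2.2.1,
        e2 G p.1 (e1 G p.1 p.2.1) p.2.2.1, e2 G p.1 (e1 G p.1 p.2.2.2.1) p.2.2.2.2))
      · rintro ⟨v, i, j, i', j'⟩ h
        obtain ⟨f1, f2, f3, f4⟩ := hE.facts v
        simp only [X3, coe_filter, mem_univ, true_and, Set.mem_ofPred_eq, c5] at h ⊢
        exact ⟨f1 _, f1 _, f2 _ _, f2 _ _, h.1, f3 _ _, f3 _ _, h.2.1, h.2.2⟩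
      · rintro ⟨v, i, j, i', j'⟩ h1 ⟨w, k, l, k', l'⟩ h2 h
        simp only [Prod.mk.injEq] at h
        obtain ⟨rfl, h3, h4, h5, h6⟩ := h
        obtain ⟨f1, f2, f3, f4⟩ := hE.facts v
        obtain rfl := hE.inj1 v h3
        obtain rfl := hE.inj1 v h4
        obtain rfl := hE.inj2 v _ (f1 _) h5
        obtain rfl := hE.inj2 v _ (f1 _) h6
        rfl

end Pool.Agent.Lib.MP_c07d40_pr
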