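import Pool.Agent.Lib.MP_c07d40_pr.Code

/-!
The counting argument: few graphs are reconstructable.
-/

namespace Pool.Agent.Lib.MP_c07d40_pr

open Finset
open scoped Classical

/-- number of subsets of size at most `t` -/
theorem card_small_subsets (U : Type) [Fintype U] (t : ℕ) :
    ((univ : Finset (Finset U)).filter (fun S => S.card ≤ t)).card ≤ (Fintype.card U + 1) ^ t := by
  calc _ ≤ ((univ : Finset (Fin t → Option U)).image
        (fun f => univ.filter (fun u : U => ∃ i, f i = some u))).card := by
        apply card_le_card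
        intro S hS
        have hS' : S.card ≤ t := (mem_filter.1 hS).2
        obtain ⟨e, -, he⟩ := exists_enum (s := S) rfl
        refine mem_image.2 ⟨fun i => if h : (i : ℕ) < S.card then some (e ⟨i, h⟩) else none,
          mem_univ _, ?_⟩
        ext u
        simp only [mem_filter, mem_univ, true_and, he]
        constructor
        · rintro ⟨i, hi⟩
          split_ifs at hi with h
          exact ⟨_, Option.some.inj hi⟩
        · rintro ⟨i, rfl⟩
          exact ⟨⟨i, lt_of_lt_of_le i.2 hS'⟩, by simp⟩
    _ ≤ _ := card_image_le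
    _ = _ := by simp

variable {V : Type} [Fintype V]

theorem card_iso_le (G₀ : SimpleGraph V) :
    ((univ : Finset (SimpleGraph V)).filter (fun G => Nonempty (G₀ ≃g G))).card ≤
      Fintype.card V ^ Fintype.card V := by
  calc _ ≤ ((univ : Finset (V → V)).image (fun f => G₀.comap f)).card := by
        apply card_le_card
        intro G hG
        obtain ⟨e⟩ := (mem_filter.1 hG).2
        refine mem_image.2 ⟨e.symm, mem_univ _, ?_⟩
        ext u w
        simp only [SimpleGraph.comap_adj]
        exact e.symm.map_rel_iff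
    _ ≤ _ := card_image_le
    _ = _ := by simp

theorem count_reconstructable {U : Type} [Fintype U] {d r : ℕ} (code : SimpleGraph V → Finset U)
    (h1 : ∀ G G', IsReg G d → IsReg G' d → code G = code G' → ∀ v, RootedNbhdIso G G' r v v)
    (M t : ℕ) (hM : ∑ G ∈ regs V d, (code G).card ≤ M * (regs V d).card) :
    (t + 1) * ((regs V d).filter (fun G => Reconstructable G r)).card ≤
      M * (regs V d).card +
        (t + 1) * (Fintype.card V ^ Fintype.card V * (Fintype.card U + 1) ^ t) := by
  set R := (regs V d).filter (fun G => Reconstructable G r) with hR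
  have e1 := card_filter_add_card_filter_not (s := R) (fun G => (code G).card ≤ t)
  have e2 : (t + 1) * (R.filter (fun G => ¬ (code G).card ≤ t)).card ≤ M * (regs V d).card := by
    refine le_trans ?_ hM
    rw [mul_comm, ← smul_eq_mul, ← sum_const]
    calc _ ≤ ∑ G ∈ R.filter (fun G => ¬ (code G).card ≤ t), (code G).card := by
          apply sum_le_sum
          intro G hG
          have := (mem_filter.1 hG).2
          omega
      _ ≤ _ := sum_le_sum_of_subset ((filter_subset _ _).trans (filter_subset _ _))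
  have e3 : (R.filter (fun G => (code G).card ≤ t)).card ≤
      Fintype.card V ^ Fintype.card V * (Fintype.card U + 1) ^ t := by
    refine le_trans (card_le_mul_card_image_of_maps_to (f := code)
      (t := (univ : Finset (Finset U)).filter (fun S => S.card ≤ t)) ?_
      (Fintype.card V ^ Fintype.card V) ?_) (Nat.mul_le_mul_left _ (card_small_subsets U t))
    · intro G hG
      exact mem_filter.2 ⟨mem_univ _, (mem_filter.1 hG).2⟩
    · intro S _
      rcases ((R.filter (fun G => (code G).card ≤ t)).filter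
        (fun G => code G = S)).eq_empty_or_nonempty with h | ⟨G₀, hG₀⟩
      · rw [h]; simp
      · refine le_trans (card_le_card ?_) (card_iso_le G₀)
        intro G hG
        simp only [hR, mem_filter, mem_regs] at hG hG₀
        refine mem_filter.2 ⟨mem_univ _, ?_⟩
        exact hG₀.1.1.2 V G (Equiv.refl V)
          (h1 G₀ G hG₀.1.1.1 hG.1.1.1 (hG₀.2.trans hG.2.symm))
  rw [← e1, mul_add, add_comm]
  exact Nat.add_le_add e2 (Nat.mul_le_mul_left _ e3)

/-- The finite estimate: `P(reconstructable) ≤ (200 M / d + 1) / n`. -/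
theorem count_final {U : Type} [Fintype U] {d r : ℕ} (code : SimpleGraph V → Finset U)
    (h1 : ∀ G G', IsReg G d → IsReg G' d → code G = code G' → ∀ v, RootedNbhdIso G G' r v v)
    (K : ℕ) (hM : ∑ G ∈ regs V d, (code G).card ≤ d * K * (regs V d).card)
    (hd : 80 ≤ d) (hn : 4 * d ^ 2 ≤ Fintype.card V)
    (hU : Fintype.card U + 1 ≤ Fintype.card V ^ 6) (G₀ : SimpleGraph V) (hG₀ : IsReg G₀ d) :
    Fintype.card V * ((regs V d).filter (fun G => Reconstructable G r)).card ≤
      (200 * K + 1) * (regs V d).card := by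
  set n := Fintype.card V with hn'
  set N := (regs V d).card with hN
  set R := ((regs V d).filter (fun G => Reconstructable G r)).card with hR
  have hd8 : 8 * (d + 1) ≤ n := by nlinarith
  obtain ⟨t, ht⟩ : ∃ t, t = n * d / 200 := ⟨_, rfl⟩
  obtain ⟨k, hk⟩ : ∃ k, k = n * d / 8 := ⟨_, rfl⟩
  have hnd : 80 * n ≤ n * d := by nlinarith
  have hn0 : 0 < n := by omega
  have e1 := count_reconstructable code h1 (d * K) t hM
  have e2 := card_regs_ge hd8 G₀ hG₀ k (by rw [← hn']; omega)
  rw [← hn', ← hN] at e2
  rw [← hn', ← hN, ← hR] at e1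
  have e3 : n ^ k ≤ N ^ 2 := by
    have h1 : (n ^ k) ^ 2 ≤ ((2 * d) ^ k * N) ^ 2 := Nat.pow_le_pow_left e2 2
    have h2 : ((2 * d) ^ k * N) ^ 2 ≤ n ^ k * N ^ 2 := by
      rw [mul_pow, ← pow_mul, mul_comm k 2, pow_mul]
      apply Nat.mul_le_mul_right
      apply Nat.pow_le_pow_left
      nlinarith
    have h3 := h1.trans h2
    rw [sq] at h3
    exact Nat.le_of_mul_le_mul_left h3 (by positivity)
  have e4 : n * (n ^ n * (Fintype.card U + 1) ^ t) ≤ N := by
    have h1 : n * (n ^ n * (Fintype.card U + 1) ^ t) ≤ n ^ (1 + n + 6 * t) := by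
      rw [pow_add, pow_add, pow_one, pow_mul, mul_assoc]
      gcongr
    refine h1.trans ?_
    apply (Nat.pow_le_pow_iff_left (n := 2) (by norm_num)).1
    refine le_trans ?_ e3
    rw [← pow_mul]
    apply Nat.pow_le_pow_right hn0
    omega
  have e5 : n * d ≤ 200 * (t + 1) := by omega
  apply Nat.le_of_mul_le_mul_left (c := t + 1) _ (by omega)
  calc (t + 1) * (n * R) = n * ((t + 1) * R) := by ring
    _ ≤ n * (d * K * N + (t + 1) * (n ^ n * (Fintype.card U + 1) ^ t)) :=
        Nat.mul_le_mul_left _ e1
    _ = (n * d) * (K * N) + (t + 1) * (n * (n ^ n * (Fintype.card U + 1) ^ t)) := by ring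
    _ ≤ (200 * (t + 1)) * (K * N) + (t + 1) * N := by gcongr
    _ = _ := by ring

theorem count_one {d : ℕ} (hd : 80 ≤ d) (hn : 4 * d ^ 2 ≤ Fintype.card V)
    (G₀ : SimpleGraph V) (hG₀ : IsReg G₀ d) :
    Fintype.card V * ((regs V d).filter (fun G => Reconstructable G 1)).card ≤
      (200 * (2 * d ^ 2) + 1) * (regs V d).card := by
  obtain ⟨code, h1, h2⟩ := exists_code_one (V := V) d
  have hd8 : 8 * (d + 1) ≤ Fintype.card V := by nlinarith
  refine count_final code h1 _ ?_ hd hn ?_ G₀ hG₀
  · refine le_trans (sum_le_sum (fun G hG => h2 G (mem_regs.1 hG))) ?_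
    refine (sum_c3 hd8 (by omega)).trans (le_of_eq ?_)
    ring
  · simp only [Fintype.card_prod, Fintype.card_fin]
    set n := Fintype.card V
    have h1 : d ≤ n := by omega
    have h2 : n * (d * d) ≤ n ^ 3 := by
      calc n * (d * d) ≤ n * (n * n) := by gcongr
        _ = n ^ 3 := by ring
    have h3 : n ^ 3 < n ^ 6 := Nat.pow_lt_pow_right (by omega) (by norm_num)
    omega

theorem count_two {d : ℕ} (hd : 80 ≤ d) (hn : 4 * d ^ 2 ≤ Fintype.card V)
    (G₀ : SimpleGraph V) (hG₀ : IsReg G₀ d) :
    Fintype.card V * ((regs V d).filter (fun G => Reconstructable G 2)).card ≤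
      (200 * (6 * d ^ 4) + 1) * (regs V d).card := by
  obtain ⟨code, h1, h2⟩ := exists_code_two (V := V) d
  have hd8 : 8 * (d + 1) ≤ Fintype.card V := by nlinarith
  refine count_final code h1 _ ?_ hd hn ?_ G₀ hG₀
  · refine le_trans (sum_le_sum (fun G hG => h2 G (mem_regs.1 hG))) ?_
    rw [sum_add_distrib, sum_add_distrib]
    have e3 := sum_c3 hd8 (by omega)
    have e4 := sum_c4 hd8 (by omega)
    have e5 := sum_c5 hd8 (by omega)
    have p1 : d ^ 2 ≤ d ^ 4 := Nat.pow_le_pow_right (by omega) (by norm_num)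
    have p2 : d ^ 3 ≤ d ^ 4 := Nat.pow_le_pow_right (by omega) (by norm_num)
    calc _ ≤ 2 * d * d ^ 4 * (regs V d).card + (2 * d * d ^ 4 * (regs V d).card +
          2 * d * d ^ 4 * (regs V d).card) := by
          refine Nat.add_le_add (e3.trans ?_) (Nat.add_le_add (e4.trans ?_) e5) <;> gcongr
      _ = _ := by ring
  · simp only [Fintype.card_sum, Fintype.card_prod, Fintype.card_fin]
    set n := Fintype.card V
    have h1 : d ≤ n := by omega
    have h1' : d - 1 ≤ n := by omega
    have h2 : n * (d * (d * (d - 1))) ≤ n ^ 5 := by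
      calc n * (d * (d * (d - 1))) ≤ n * (n * (n * n)) := by gcongr
        _ = n ^ 4 := by ring
        _ ≤ n ^ 5 := Nat.pow_le_pow_right (by omega) (by norm_num)
    have h3 : n * (d * ((d - 1) * (d * (d - 1)))) ≤ n ^ 5 := by
      calc n * (d * ((d - 1) * (d * (d - 1)))) ≤ n * (n * (n * (n * n))) := by gcongr
        _ = n ^ 5 := by ring
    have h4 : 0 < n ^ 5 := Nat.pow_pos (by omega)
    have h5 : 4 * n ^ 5 ≤ n ^ 6 := by
      rw [pow_succ n 5, mul_comm]
      apply Nat.mul_le_mul_left
      omega
    omega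

end Pool.Agent.Lib.MP_c07d40_pr
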