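import Pool.Agent.Lib.MP_c07d40_pr.Switch

/-!
Enumerations of neighbourhoods and expected numbers of short closed structures.
-/

namespace Pool.Agent.Lib.MP_c07d40_pr

open Finset
open scoped Classical

variable {V : Type} [Fintype V]

omit [Fintype V] in
theorem exists_enum {s : Finset V} {m : ℕ} (h : s.card = m) :
    ∃ e : Fin m → V, Function.Injective e ∧ ∀ w, w ∈ s ↔ ∃ i, e i = w := by
  refine ⟨fun i => ((equivFinOfCardEq h).symm i : V), ?_, ?_⟩
  · intro i j hij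
    exact (equivFinOfCardEq h).symm.injective (Subtype.ext hij)
  · intro w
    constructor
    · intro hw
      exact ⟨equivFinOfCardEq h ⟨w, hw⟩, by simp⟩
    · rintro ⟨i, rfl⟩
      exact ((equivFinOfCardEq h).symm i).2

/-- enumeration of the first and second (non-backtracking) neighbours -/
structure IsEnum (G : SimpleGraph V) {d : ℕ} (e1 : V → Fin d → V)
    (e2 : V → V → Fin (d - 1) → V) : Prop where
  inj1 : ∀ v, Function.Injective (e1 v)
  adj1 : ∀ v w, G.Adj v w ↔ ∃ i, e1 v i = w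
  inj2 : ∀ v a, G.Adj v a → Function.Injective (e2 v a)
  adj2 : ∀ v a, G.Adj v a → ∀ w, (G.Adj a w ∧ w ≠ v) ↔ ∃ j, e2 v a j = w

theorem exists_isEnum (G : SimpleGraph V) (d : ℕ) :
    ∃ (e1 : V → Fin d → V) (e2 : V → V → Fin (d - 1) → V), IsReg G d → IsEnum G e1 e2 := by
  by_cases hG : IsReg G d
  · have hG' := isReg_iff.1 hG
    choose e1 h1 h1' using fun v => exists_enum (hG' v)
    have : ∀ v a : V, ∃ e : Fin (d - 1) → V, G.Adj v a →
        (Function.Injective e ∧ ∀ w, (G.Adj a w ∧ w ≠ v) ↔ ∃ j, e j = w) := by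
      intro v a
      by_cases h : G.Adj v a
      · have hc : ((nb G a).erase v).card = d - 1 := by
          rw [card_erase_of_mem (by simpa using h.symm), hG']
        obtain ⟨e, he, he'⟩ := exists_enum hc
        refine ⟨e, fun _ => ⟨he, fun w => ?_⟩⟩
        rw [← he']
        simp [and_comm]
      · exact ⟨fun _ => v, fun h' => absurd h' h⟩
    choose e2 h2 using this
    refine ⟨e1, e2, fun _ => ⟨h1, fun v w => ?_, fun v a h => (h2 v a h).1,
      fun v a h => (h2 v a h).2⟩⟩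
    rw [← h1', mem_nb]
  · exact ⟨fun v _ => v, fun v _ _ => v, fun h => absurd h hG⟩

/-- ordered triangles -/
noncomputable def c3 (G : SimpleGraph V) : Finset (V × V × V) :=
  univ.filter (fun p => G.Adj p.1 p.2.1 ∧ G.Adj p.1 p.2.2 ∧ G.Adj p.2.1 p.2.2)

/-- ordered four-cycles `(v, a, a', b)` -/
noncomputable def c4 (G : SimpleGraph V) : Finset (V × V × V × V) :=
  univ.filter (fun p => G.Adj p.1 p.2.1 ∧ G.Adj p.1 p.2.2.1 ∧ G.Adj p.2.1 p.2.2.2 ∧
    G.Adj p.2.2.1 p.2.2.2 ∧ p.2.1 ≠ p.2.2.1 ∧ p.2.2.2 ≠ p.1)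

/-- two walks `v a b`, `v a' b'` closed up by a new edge `b b'`; tuples `(v, a, a', b, b')` -/
noncomputable def c5 (G : SimpleGraph V) : Finset (V × V × V × V × V) :=
  univ.filter (fun p => G.Adj p.1 p.2.1 ∧ G.Adj p.1 p.2.2.1 ∧ G.Adj p.2.1 p.2.2.2.1 ∧
    G.Adj p.2.2.1 p.2.2.2.2 ∧ G.Adj p.2.2.2.1 p.2.2.2.2 ∧ p.2.2.2.1 ≠ p.1 ∧ p.2.2.2.2 ≠ p.1 ∧
    p.2.2.2.1 ≠ p.2.2.1 ∧ p.2.2.2.2 ≠ p.2.1)

theorem sum_c3 {d : ℕ} (hd : 8 * (d + 1) ≤ Fintype.card V) (hd' : 4 ≤ d) :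
    ∑ G ∈ regs V d, (c3 G).card ≤ 2 * d * d ^ 2 * (regs V d).card := by
  refine le_trans ?_ (switching_sum hd
    (univ.filter (fun p : V × V × V => p.2.1 ≠ p.1 ∧ p.2.2 ≠ p.1))
    (fun p => {s(p.1, p.2.1), s(p.1, p.2.2)}) (fun p => p.2.1) (fun p => p.2.2) ?_ ?_ (d ^ 2) ?_)
  · apply sum_le_sum
    intro G _
    apply card_le_card
    rintro ⟨v, a, b⟩ h
    simp only [c3, mem_filter, mem_univ, true_and, Has, mem_insert, mem_singleton,
      forall_eq_or_imp, forall_eq, SimpleGraph.mem_edgeSet] at h ⊢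
    exact ⟨⟨h.1.ne', h.2.1.ne'⟩, ⟨h.1, h.2.1⟩, h.2.2⟩
  · intro p _
    have : ({s(p.1, p.2.1), s(p.1, p.2.2)} : Finset (Sym2 V)).card ≤ 2 := card_le_two
    nlinarith
  · rintro ⟨v, a, b⟩ h
    simp only [mem_filter, mem_univ, true_and, mem_insert, mem_singleton, Sym2.eq_iff] at h ⊢
    grind
  · intro G hG
    obtain ⟨e1, e2, he⟩ := exists_isEnum G d
    have he := he hG
    calc _ ≤ ((univ : Finset (V × Fin d × Fin d)).image
          (fun q => (q.1, e1 q.1 q.2.1, e1 q.1 q.2.2))).card := by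
          apply card_le_card
          rintro ⟨v, a, b⟩ h
          simp only [mem_filter, mem_univ, true_and, Has, mem_insert, mem_singleton,
            forall_eq_or_imp, forall_eq, SimpleGraph.mem_edgeSet] at h
          obtain ⟨i, rfl⟩ := (he.adj1 _ _).1 h.2.1
          obtain ⟨j, rfl⟩ := (he.adj1 _ _).1 h.2.2
          exact mem_image.2 ⟨(v, i, j), mem_univ _, rfl⟩
      _ ≤ _ := card_image_le
      _ = _ := by simp only [card_univ, Fintype.card_prod, Fintype.card_fin]; ring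

theorem sum_c4 {d : ℕ} (hd : 8 * (d + 1) ≤ Fintype.card V) (hd' : 4 ≤ d) :
    ∑ G ∈ regs V d, (c4 G).card ≤ 2 * d * d ^ 3 * (regs V d).card := by
  refine le_trans ?_ (switching_sum hd
    (univ.filter (fun p : V × V × V × V => p.2.1 ≠ p.2.2.1 ∧ p.2.2.2 ≠ p.1 ∧ p.2.2.1 ≠ p.1))
    (fun p => {s(p.1, p.2.1), s(p.1, p.2.2.1), s(p.2.1, p.2.2.2)})
    (fun p => p.2.2.1) (fun p => p.2.2.2) ?_ ?_ (d ^ 3) ?_)
  · apply sum_le_sum
    intro G _
    apply card_le_card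
    rintro ⟨v, a, a', b⟩ h
    simp only [c4, mem_filter, mem_univ, true_and, Has, mem_insert, mem_singleton,
      forall_eq_or_imp, forall_eq, SimpleGraph.mem_edgeSet] at h ⊢
    obtain ⟨h1, h2, h3, h4, h5, h6⟩ := h
    exact ⟨⟨h5, h6, h2.ne'⟩, ⟨h1, h2, h3⟩, h4⟩
  · intro p _
    have : ({s(p.1, p.2.1), s(p.1, p.2.2.1), s(p.2.1, p.2.2.2)} : Finset (Sym2 V)).card ≤ 3 :=
      card_le_three
    nlinarith
  · rintro ⟨v, a, a', b⟩ h
    simp only [mem_filter, mem_univ, true_and, mem_insert, mem_singleton, Sym2.eq_iff] at h ⊢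
    grind
  · intro G hG
    obtain ⟨e1, e2, he⟩ := exists_isEnum G d
    have he := he hG
    calc _ ≤ ((univ : Finset (V × Fin d × Fin d × Fin d)).image
          (fun q => (q.1, e1 q.1 q.2.1, e1 q.1 q.2.2.1, e1 (e1 q.1 q.2.1) q.2.2.2))).card := by
          apply card_le_card
          rintro ⟨v, a, a', b⟩ h
          simp only [mem_filter, mem_univ, true_and, Has, mem_insert, mem_singleton,
            forall_eq_or_imp, forall_eq, SimpleGraph.mem_edgeSet] at h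
          obtain ⟨i, rfl⟩ := (he.adj1 _ _).1 h.2.1
          obtain ⟨j, rfl⟩ := (he.adj1 _ _).1 h.2.2.1
          obtain ⟨k, rfl⟩ := (he.adj1 _ _).1 h.2.2.2
          exact mem_image.2 ⟨(v, i, j, k), mem_univ _, rfl⟩
      _ ≤ _ := card_image_le
      _ = _ := by simp only [card_univ, Fintype.card_prod, Fintype.card_fin]; ring

theorem sum_c5 {d : ℕ} (hd : 8 * (d + 1) ≤ Fintype.card V) (hd' : 4 ≤ d) :
    ∑ G ∈ regs V d, (c5 G).card ≤ 2 * d * d ^ 4 * (regs V d).card := by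
  refine le_trans ?_ (switching_sum hd
    (univ.filter (fun p : V × V × V × V × V => p.2.2.2.1 ≠ p.1 ∧ p.2.2.2.2 ≠ p.1 ∧
      p.2.2.2.1 ≠ p.2.2.1 ∧ p.2.2.2.2 ≠ p.2.1))
    (fun p => {s(p.1, p.2.1), s(p.1, p.2.2.1), s(p.2.1, p.2.2.2.1), s(p.2.2.1, p.2.2.2.2)})
    (fun p => p.2.2.2.1) (fun p => p.2.2.2.2) ?_ ?_ (d ^ 4) ?_)
  · apply sum_le_sum
    intro G _
    apply card_le_card
    rintro ⟨v, a, a', b, b'⟩ h
    simp only [c5, mem_filter, mem_univ, true_and, Has, mem_insert, mem_singleton,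
      forall_eq_or_imp, forall_eq, SimpleGraph.mem_edgeSet] at h ⊢
    obtain ⟨h1, h2, h3, h4, h5, h6⟩ := h
    exact ⟨h6, ⟨h1, h2, h3, h4⟩, h5⟩
  · intro p _
    have : ({s(p.1, p.2.1), s(p.1, p.2.2.1), s(p.2.1, p.2.2.2.1), s(p.2.2.1, p.2.2.2.2)} :
        Finset (Sym2 V)).card ≤ 4 := card_le_four
    nlinarith
  · rintro ⟨v, a, a', b, b'⟩ h
    simp only [mem_filter, mem_univ, true_and, mem_insert, mem_singleton, Sym2.eq_iff] at h ⊢
    grind
  · intro G hG
    obtain ⟨e1, e2, he⟩ := exists_isEnum G d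
    have he := he hG
    calc _ ≤ ((univ : Finset (V × Fin d × Fin d × Fin d × Fin d)).image
          (fun q => (q.1, e1 q.1 q.2.1, e1 q.1 q.2.2.1, e1 (e1 q.1 q.2.1) q.2.2.2.1,
            e1 (e1 q.1 q.2.2.1) q.2.2.2.2))).card := by
          apply card_le_card
          rintro ⟨v, a, a', b, b'⟩ h
          simp only [mem_filter, mem_univ, true_and, Has, mem_insert, mem_singleton,
            forall_eq_or_imp, forall_eq, SimpleGraph.mem_edgeSet] at h
          obtain ⟨i, rfl⟩ := (he.adj1 _ _).1 h.2.1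
          obtain ⟨j, rfl⟩ := (he.adj1 _ _).1 h.2.2.1
          obtain ⟨k, rfl⟩ := (he.adj1 _ _).1 h.2.2.2.1
          obtain ⟨l, rfl⟩ := (he.adj1 _ _).1 h.2.2.2.2
          exact mem_image.2 ⟨(v, i, j, k, l), mem_univ _, rfl⟩
      _ ≤ _ := card_image_le
      _ = _ := by simp only [card_univ, Fintype.card_prod, Fintype.card_fin]; ring

end Pool.Agent.Lib.MP_c07d40_pr
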