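import Mathlib

/-!
Definitions for the problem on shotgun reconstruction of random regular graphs.
-/

namespace Pool.Agent.Lib.MP_c07d40_pr

/-- The set of vertices of `G` at graph distance at most `r` from `v`. -/
def nbhdSet {V : Type} (G : SimpleGraph V) (r : ℕ) (v : V) : Set V :=
  {w | G.edist v w ≤ (r : ℕ∞)}

theorem self_mem_nbhdSet {V : Type} (G : SimpleGraph V) (r : ℕ) (v : V) :
    v ∈ nbhdSet G r v := by
  simp [nbhdSet]

/-- The rooted `r`-neighbourhood of `v` in `G` (induced subgraph on the ball of radius `r`,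
rooted at `v`) is isomorphic, by a root-preserving graph isomorphism, to the rooted
`r`-neighbourhood of `v'` in `G'`. -/
def RootedNbhdIso {V V' : Type} (G : SimpleGraph V) (G' : SimpleGraph V') (r : ℕ)
    (v : V) (v' : V') : Prop :=
  ∃ f : G.induce (nbhdSet G r v) ≃g G'.induce (nbhdSet G' r v'),
    f ⟨v, self_mem_nbhdSet G r v⟩ = ⟨v', self_mem_nbhdSet G' r v'⟩

/-- `G` is reconstructable from its `r`-neighbourhoods: every graph `G'` whose vertices can be
matched bijectively with those of `G` with isomorphic rooted `r`-neighbourhoods is isomorphic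
to `G`. -/
def Reconstructable {V : Type} (G : SimpleGraph V) (r : ℕ) : Prop :=
  ∀ (V' : Type) (G' : SimpleGraph V') (φ : V ≃ V'),
    (∀ v : V, RootedNbhdIso G G' r v (φ v)) → Nonempty (G ≃g G')

/-- `G` is `d`-regular: every vertex has exactly `d` neighbours. -/
def IsReg {V : Type} (G : SimpleGraph V) (d : ℕ) : Prop :=
  ∀ v : V, (G.neighborSet v).ncard = d

/-- The probability that a uniformly random `d`-regular simple graph on `n` labelled vertices is
not reconstructable from its `r`-neighbourhoods. -/
noncomputable def probNotReconstructable (n d r : ℕ) : ℝ :=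
  (({G : SimpleGraph (Fin n) | IsReg G d ∧ ¬ Reconstructable G r}.ncard : ℕ) : ℝ) /
    (({G : SimpleGraph (Fin n) | IsReg G d}.ncard : ℕ) : ℝ)

end Pool.Agent.Lib.MP_c07d40_pr
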