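import Pool.Agent.Lib.MP_c07d40_pr.Defs

/-!
Existence of a `d`-regular graph on `n` vertices when `d < n` and `n d` is even.
-/

namespace Pool.Agent.Lib.MP_c07d40_pr

open Finset

theorem exists_symm_set (n d : ℕ) (hdn : d < n) (he : Even (n * d)) :
    ∃ S : Finset ℕ, S.card = d ∧ (∀ x ∈ S, 0 < x ∧ x < n) ∧ ∀ x ∈ S, n - x ∈ S := by
  rcases Nat.even_or_odd' d with ⟨m, rfl | rfl⟩
  · refine ⟨Icc 1 m ∪ Icc (n - m) (n - 1), ?_, ?_, ?_⟩
    · rw [card_union_of_disjoint]
      · simp only [Nat.card_Icc]; omega
      · simp only [disjoint_left, mem_Icc]; omega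
    · simp only [mem_union, mem_Icc]; omega
    · simp only [mem_union, mem_Icc]; omega
  · have hn : Even n := by
      rcases Nat.even_mul.1 he with h | h
      · exact h
      · exact absurd h (by simp)
    obtain ⟨k, rfl⟩ := hn
    refine ⟨insert k (Icc 1 m ∪ Icc (k + k - m) (k + k - 1)), ?_, ?_, ?_⟩
    · rw [card_insert_of_notMem, card_union_of_disjoint]
      · simp only [Nat.card_Icc]; omega
      · simp only [disjoint_left, mem_Icc]; omega
      · simp only [mem_union, mem_Icc]; omega
    · simp only [mem_insert, mem_union, mem_Icc]; omega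
    · simp only [mem_insert, mem_union, mem_Icc]; omega

theorem exists_regular (n d : ℕ) (hdn : d < n) (he : Even (n * d)) :
    ∃ G : SimpleGraph (Fin n), IsReg G d := by
  obtain ⟨S, h1, h2, h3⟩ := exists_symm_set n d hdn he
  let G : SimpleGraph (Fin n) :=
    { Adj := fun u w => (if (u : ℕ) ≤ w then (w : ℕ) - u else (w : ℕ) + n - u) ∈ S
      symm := ⟨by
        intro u w h
        have h4 := h2 _ h
        have h5 := h3 _ h
        have hu := u.2
        have hw := w.2
        convert h5 using 1
        split_ifs at h4 ⊢ <;> omega⟩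
      loopless := ⟨by
        intro u h
        have := (h2 _ h).1
        simp at this⟩ }
  refine ⟨G, fun u => ?_⟩
  rw [← h1, ← Set.ncard_coe_finset]
  apply Set.ncard_congr (fun (w : Fin n) _ => if (u : ℕ) ≤ w then (w : ℕ) - u else (w : ℕ) + n - u)
  · intro w hw
    exact hw
  · intro w w' _ _ h
    have hu := u.2
    have hw := w.2
    have hw' := w'.2
    apply Fin.ext
    split_ifs at h <;> omega
  · intro x hx
    have h4 := h2 x hx
    have hu := u.2
    have key : ∀ w : Fin n, (if (u : ℕ) ≤ w then (w : ℕ) - u else (w : ℕ) + n - u) = x →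
        ∃ w : Fin n, ∃ _ : w ∈ G.neighborSet u,
          (if (u : ℕ) ≤ w then (w : ℕ) - u else (w : ℕ) + n - u) = x := by
      intro w hw
      refine ⟨w, ?_, hw⟩
      change (if (u : ℕ) ≤ w then (w : ℕ) - u else (w : ℕ) + n - u) ∈ S
      rw [hw]
      exact hx
    by_cases h : (u : ℕ) + x < n
    · apply key ⟨u + x, h⟩
      simp
    · apply key ⟨u + x - n, by omega⟩
      simp only
      split_ifs <;> omega

end Pool.Agent.Lib.MP_c07d40_pr
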