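import Pool.Agent.Lib.MP_c07d40_pr.Count
import Pool.Agent.Lib.MP_c07d40_pr.Exist

/-!
From the finite estimate to the limit statement.
-/

namespace Pool.Agent.Lib.MP_c07d40_pr

open Finset Filter Topology
open scoped Classical

theorem prob_bounds {n d r K : ℕ} (hn : 0 < n) (G₀ : SimpleGraph (Fin n)) (hG₀ : IsReg G₀ d)
    (h : Fintype.card (Fin n) * ((regs (Fin n) d).filter (fun G => Reconstructable G r)).card ≤
      K * (regs (Fin n) d).card) :
    1 - (K : ℝ) / n ≤ probNotReconstructable n d r ∧ probNotReconstructable n d r ≤ 1 := by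
  have e1 : {G : SimpleGraph (Fin n) | IsReg G d ∧ ¬ Reconstructable G r}.ncard =
      ((regs (Fin n) d).filter (fun G => ¬ Reconstructable G r)).card := by
    rw [← Set.ncard_coe_finset]
    congr 1
    ext G
    simp
  have e2 : {G : SimpleGraph (Fin n) | IsReg G d}.ncard = (regs (Fin n) d).card := by
    rw [← Set.ncard_coe_finset]
    congr 1
    ext G
    simp
  have e3 := card_filter_add_card_filter_not (s := regs (Fin n) d) (fun G => Reconstructable G r)
  have e4 : 0 < (regs (Fin n) d).card := card_pos.2 ⟨G₀, mem_regs.2 hG₀⟩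
  rw [Fintype.card_fin] at h
  unfold probNotReconstructable
  rw [e1, e2]
  set N := (regs (Fin n) d).card
  set A := ((regs (Fin n) d).filter (fun G => Reconstructable G r)).card
  set B := ((regs (Fin n) d).filter (fun G => ¬ Reconstructable G r)).card
  have hN : (0 : ℝ) < N := by exact_mod_cast e4
  have hn' : (0 : ℝ) < n := by exact_mod_cast hn
  have e3' : (A : ℝ) + B = N := by exact_mod_cast e3
  have h' : (n : ℝ) * A ≤ K * N := by exact_mod_cast h
  have hA : (0 : ℝ) ≤ A := Nat.cast_nonneg _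
  constructor
  · rw [le_div_iff₀ hN]
    have : (A : ℝ) ≤ K / n * N := by
      rw [div_mul_eq_mul_div, le_div_iff₀ hn']
      linarith
    linarith
  · rw [div_le_one hN]
    linarith

/-- The general limit statement: degrees at least `80` with `d ^ s = o(n)`, `s ≥ 2`. -/
theorem tendsto_of_count {r s c : ℕ} (hs : 2 ≤ s)
    (hc : ∀ n d : ℕ, 80 ≤ d → 4 * d ^ 2 ≤ Fintype.card (Fin n) →
      ∀ G₀ : SimpleGraph (Fin n), IsReg G₀ d →
      Fintype.card (Fin n) * ((regs (Fin n) d).filter (fun G => Reconstructable G r)).card ≤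
        (200 * (c * d ^ s) + 1) * (regs (Fin n) d).card)
    (d : ℕ → ℕ) (h1 : ∀ᶠ n in atTop, Even (n * d n) ∧ 80 ≤ d n)
    (h2 : Tendsto (fun n : ℕ => (d n : ℝ) ^ s / n) atTop (𝓝 0)) :
    Tendsto (fun n => probNotReconstructable n (d n) r) atTop (𝓝 1) := by
  have h3 : Tendsto (fun n : ℕ => 1 - (200 * c * ((d n : ℝ) ^ s / n) + 1 / (n : ℝ))) atTop
      (𝓝 1) := by
    have := ((h2.const_mul (200 * (c : ℝ))).add tendsto_one_div_atTop_nhds_zero_nat).const_sub 1
    simpa using this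
  have h4 : ∀ᶠ n : ℕ in atTop, (d n : ℝ) ^ s / n < 1 / 4 :=
    h2.eventually (gt_mem_nhds (by norm_num))
  have h5 : ∀ᶠ n : ℕ in atTop,
      1 - (200 * c * ((d n : ℝ) ^ s / n) + 1 / (n : ℝ)) ≤ probNotReconstructable n (d n) r ∧
        probNotReconstructable n (d n) r ≤ 1 := by
    filter_upwards [h1, h4, eventually_gt_atTop 0] with n hn1 hn2 hn0
    have hn' : (0 : ℝ) < n := by exact_mod_cast hn0
    have e1 : 4 * d n ^ 2 ≤ n := by
      rw [div_lt_iff₀ hn'] at hn2
      have e2 : d n ^ 2 ≤ d n ^ s := Nat.pow_le_pow_right (by omega) hs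
      have e3 : (4 : ℝ) * (d n : ℝ) ^ s ≤ n := by linarith
      have e4 : 4 * d n ^ s ≤ n := by exact_mod_cast e3
      omega
    obtain ⟨G₀, hG₀⟩ := exists_regular n (d n) (by nlinarith [hn1.2]) hn1.1
    have := prob_bounds hn0 G₀ hG₀ (hc n (d n) hn1.2 (by simpa using e1) G₀ hG₀)
    convert this using 3
    push_cast
    field_simp
  exact tendsto_of_tendsto_of_tendsto_of_le_of_le' h3 tendsto_const_nhds
    (h5.mono fun _ h => h.1) (h5.mono fun _ h => h.2)

theorem range_facts {ε : ℝ} (hε : 0 < ε) (s : ℕ) (hs : 0 < s) (d : ℕ → ℕ)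
    (h : ∀ᶠ n : ℕ in atTop, Even (n * d n) ∧ (n : ℝ) ^ ε ≤ d n ∧
      (d n : ℝ) ≤ (n : ℝ) ^ (1 / (s : ℝ) - ε)) :
    (∀ᶠ n in atTop, Even (n * d n) ∧ 80 ≤ d n) ∧
      Tendsto (fun n : ℕ => (d n : ℝ) ^ s / n) atTop (𝓝 0) := by
  have hs' : (0 : ℝ) < s := by exact_mod_cast hs
  constructor
  · have h1 : Tendsto (fun n : ℕ => (n : ℝ) ^ ε) atTop atTop :=
      (tendsto_rpow_atTop hε).comp tendsto_natCast_atTop_atTop
    filter_upwards [h, h1.eventually_ge_atTop 80] with n hn hn'
    refine ⟨hn.1, ?_⟩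
    have : (80 : ℝ) ≤ d n := hn'.trans hn.2.1
    exact_mod_cast this
  · have h1 : Tendsto (fun n : ℕ => (n : ℝ) ^ (-(s * ε))) atTop (𝓝 0) :=
      (tendsto_rpow_neg_atTop (by positivity)).comp tendsto_natCast_atTop_atTop
    refine tendsto_of_tendsto_of_tendsto_of_le_of_le' tendsto_const_nhds h1
      (Eventually.of_forall fun n => by positivity) ?_
    filter_upwards [h, eventually_gt_atTop 0] with n hn hn0
    have hn' : (0 : ℝ) < n := by exact_mod_cast hn0
    rw [div_le_iff₀ hn']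
    calc (d n : ℝ) ^ s ≤ ((n : ℝ) ^ (1 / (s : ℝ) - ε)) ^ s := by
          gcongr
          exact hn.2.2
      _ = (n : ℝ) ^ (-(s * ε)) * n := by
          rw [← Real.rpow_natCast, ← Real.rpow_mul hn'.le, ← Real.rpow_add_one hn'.ne']
          congr 1
          field_simp
          ring

end Pool.Agent.Lib.MP_c07d40_pr
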