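import Pool.Agent.Lib.MP_c07d40_pr.Limit

/-!
No estimator that only sees the neighbourhoods finds a positive fraction of the edges.
-/

namespace Pool.Agent.Lib.MP_c07d40_pr

open Finset Filter Topology
open scoped Classical

section finite

variable {V : Type} [Fintype V]

/-- Few regular graphs share `k` edges with a relabelling of a fixed graph. -/
theorem count_overlap {d : ℕ} (hd : 8 * (d + 1) ≤ Fintype.card V) (H : SimpleGraph V) (m k : ℕ)
    (hH : H.edgeSet.ncard ≤ m) (hk : 8 * k ≤ Fintype.card V * d) :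
    Fintype.card V ^ k * ((regs V d).filter (fun G => ∃ σ : Equiv.Perm V,
        k ≤ {e ∈ H.edgeSet | e.map σ ∈ G.edgeSet}.ncard)).card ≤
      Fintype.card V ^ Fintype.card V * 2 ^ m * ((2 * d) ^ k * (regs V d).card) := by
  set EH : Finset (Sym2 V) := univ.filter (fun e => e ∈ H.edgeSet) with hEH
  have hE : EH.card ≤ m := by
    refine le_trans (le_of_eq ?_) hH
    rw [← Set.ncard_coe_finset]
    congr 1
    ext e
    simp [hEH]
  set P : Finset (Equiv.Perm V × Finset (Sym2 V)) := univ ×ˢ powersetCard k EH with hP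
  have hsub : (regs V d).filter (fun G => ∃ σ : Equiv.Perm V,
        k ≤ {e ∈ H.edgeSet | e.map σ ∈ G.edgeSet}.ncard) ⊆
      P.biUnion (fun x => (regs V d).filter (fun G => Has G (x.2.image (Sym2.map x.1)))) := by
    intro G hG
    obtain ⟨hG1, σ, hσ⟩ := mem_filter.1 hG
    have e1 : {e ∈ H.edgeSet | e.map σ ∈ G.edgeSet}.ncard =
        (EH.filter (fun e => e.map σ ∈ G.edgeSet)).card := by
      rw [← Set.ncard_coe_finset]
      congr 1
      ext e
      simp [hEH]
    rw [e1] at hσ
    obtain ⟨S, hS, hSk⟩ := exists_subset_card_eq hσ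
    refine mem_biUnion.2 ⟨(σ, S), ?_, mem_filter.2 ⟨hG1, ?_⟩⟩
    · exact mem_product.2 ⟨mem_univ _, mem_powersetCard.2 ⟨hS.trans (filter_subset _ _), hSk⟩⟩
    · intro e he
      obtain ⟨e', he', rfl⟩ := mem_image.1 he
      exact (mem_filter.1 (hS he')).2
  have hPc : P.card ≤ Fintype.card V ^ Fintype.card V * 2 ^ m := by
    rw [hP, card_product, card_univ, Fintype.card_perm, card_powersetCard]
    exact Nat.mul_le_mul (Nat.factorial_le_pow _)
      ((Nat.choose_le_two_pow _ _).trans (Nat.pow_le_pow_right (by norm_num) hE))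
  calc _ ≤ Fintype.card V ^ k * ∑ x ∈ P,
        ((regs V d).filter (fun G => Has G (x.2.image (Sym2.map x.1)))).card :=
        Nat.mul_le_mul_left _ ((card_le_card hsub).trans card_biUnion_le)
    _ ≤ ∑ _x ∈ P, (2 * d) ^ k * (regs V d).card := by
        rw [mul_sum]
        refine sum_le_sum fun x hx => ?_
        have h1 : (x.2.image (Sym2.map x.1)).card = k := by
          rw [card_image_of_injective _ (Sym2.map.injective x.1.injective)]
          exact (mem_powersetCard.1 (mem_product.1 hx).2).2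
        have h2 := switching_iter hd (x.2.image (Sym2.map x.1)) (by rw [h1]; exact hk)
        rwa [h1] at h2
    _ ≤ _ := by
        rw [sum_const, smul_eq_mul]
        exact Nat.mul_le_mul_right _ hPc

/-- The finite estimate. -/
theorem count_est {U : Type} [Fintype U] {d : ℕ} (code : SimpleGraph V → Finset U)
    (est : SimpleGraph V → SimpleGraph V)
    (h1 : ∀ G G', IsReg G d → IsReg G' d → code G = code G' → est G = est G')
    (hsize : ∀ G, (est G).edgeSet.ncard ≤ Fintype.card V * d)
    (K L : ℕ) (hM : ∑ G ∈ regs V d, (code G).card ≤ d * K * (regs V d).card)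
    (hL : 8 ≤ L) (hd : 48 * L ≤ d) (hn : 4 * d ^ 2 ≤ Fintype.card V)
    (hnL : 4 ^ (4 * L) ≤ Fintype.card V)
    (hU : Fintype.card U + 1 ≤ Fintype.card V ^ 6) :
    Fintype.card V * ((regs V d).filter (fun G => ∃ σ : Equiv.Perm V,
        Fintype.card V * d ≤ L * {e ∈ (est G).edgeSet | e.map σ ∈ G.edgeSet}.ncard)).card ≤
      (48 * L * K + 1) * (regs V d).card := by
  set n := Fintype.card V with hn'
  set N := (regs V d).card with hN
  set R := (regs V d).filter (fun G => ∃ σ : Equiv.Perm V,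
        n * d ≤ L * {e ∈ (est G).edgeSet | e.map σ ∈ G.edgeSet}.ncard) with hR
  have hd8 : 8 * (d + 1) ≤ n := by nlinarith
  have hn0 : 0 < n := by omega
  have hL0 : 0 < 48 * L := by omega
  obtain ⟨t, ht⟩ : ∃ t, t = n * d / (48 * L) := ⟨_, rfl⟩
  have ht1 : 48 * L * t ≤ n * d := by rw [ht]; exact Nat.mul_div_le _ _
  have ht2 : n * d ≤ 48 * L * (t + 1) := by rw [ht]; exact (Nat.lt_mul_div_succ _ hL0).le
  have ht3 : n ≤ t := by
    rw [ht, Nat.le_div_iff_mul_le hL0]
    exact Nat.mul_le_mul_left _ hd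
  have hk : 8 * (48 * t) ≤ n * d := by nlinarith
  have e1 := card_filter_add_card_filter_not (s := R) (fun G => (code G).card ≤ t)
  have e2 : (t + 1) * (R.filter (fun G => ¬ (code G).card ≤ t)).card ≤ d * K * N := by
    refine le_trans ?_ hM
    rw [mul_comm, ← smul_eq_mul, ← sum_const]
    calc _ ≤ ∑ G ∈ R.filter (fun G => ¬ (code G).card ≤ t), (code G).card := by
          apply sum_le_sum
          intro G hG
          have := (mem_filter.1 hG).2
          omega
      _ ≤ _ := sum_le_sum_of_subset ((filter_subset _ _).trans (filter_subset _ _))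
  -- each fibre of the code is small
  have hfib : ∀ S : Finset U, n ^ (1 + 6 * t) *
      ((R.filter (fun G => (code G).card ≤ t)).filter (fun G => code G = S)).card ≤ N := by
    intro S
    rcases ((R.filter (fun G => (code G).card ≤ t)).filter
      (fun G => code G = S)).eq_empty_or_nonempty with h | ⟨G₀, hG₀⟩
    · rw [h]; simp
    set c := ((R.filter (fun G => (code G).card ≤ t)).filter (fun G => code G = S)).card with hc
    have f1 : n ^ (48 * t) * c ≤ n ^ n * 2 ^ (n * d) * ((2 * d) ^ (48 * t) * N) := by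
      refine le_trans (Nat.mul_le_mul_left _ (card_le_card ?_))
        (count_overlap hd8 (est G₀) (n * d) (48 * t) (hsize G₀) hk)
      intro G hG
      simp only [hR, mem_filter, mem_regs] at hG hG₀ ⊢
      obtain ⟨⟨⟨hG1, σ, hσ⟩, -⟩, hG2⟩ := hG
      refine ⟨hG1, σ, ?_⟩
      rw [h1 G₀ G hG₀.1.1.1 hG1 (hG₀.2.trans hG2.symm)]
      refine Nat.le_of_mul_le_mul_left (c := L) ?_ (by omega)
      calc L * (48 * t) = 48 * L * t := by ring
        _ ≤ _ := ht1.trans hσ
    have f2 : (2 * d) ^ (48 * t) ≤ n ^ (24 * t) := by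
      rw [show 48 * t = 2 * (24 * t) by ring, pow_mul]
      apply Nat.pow_le_pow_left
      nlinarith
    have f3 : 2 ^ (n * d) ≤ n ^ (6 * (t + 1)) := by
      calc 2 ^ (n * d) ≤ 2 ^ (48 * L * (t + 1)) := Nat.pow_le_pow_right (by norm_num) ht2
        _ = (4 ^ (4 * L)) ^ (6 * (t + 1)) := by
          rw [show (4 : ℕ) = 2 ^ 2 from rfl, ← pow_mul, ← pow_mul]
          congr 1
          ring
        _ ≤ _ := Nat.pow_le_pow_left hnL _
    have f4 : n ^ (48 * t) * c ≤ n ^ (n + 6 * (t + 1) + 24 * t) * N := by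
      refine f1.trans ?_
      rw [pow_add, pow_add, mul_assoc (n ^ n * n ^ (6 * (t + 1)))]
      gcongr
    have f5 : n ^ (n + 6 * (t + 1) + 24 * t) * (n ^ (1 + 6 * t) * c) ≤ n ^ (48 * t) * c := by
      rw [← mul_assoc, ← pow_add]
      exact Nat.mul_le_mul_right _ (Nat.pow_le_pow_right hn0 (by omega))
    exact Nat.le_of_mul_le_mul_left (f5.trans f4) (by positivity)
  have e3 : n * (R.filter (fun G => (code G).card ≤ t)).card ≤ N := by
    have g1 : (R.filter (fun G => (code G).card ≤ t)).card =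
        ∑ S ∈ (univ : Finset (Finset U)).filter (fun S => S.card ≤ t),
          ((R.filter (fun G => (code G).card ≤ t)).filter (fun G => code G = S)).card :=
      card_eq_sum_card_fiberwise fun G hG => mem_filter.2 ⟨mem_univ _, (mem_filter.1 hG).2⟩
    have g2 : n ^ (1 + 6 * t) * (R.filter (fun G => (code G).card ≤ t)).card ≤ n ^ (6 * t) * N := by
      rw [g1, mul_sum]
      refine (sum_le_sum fun S _ => hfib S).trans ?_
      rw [sum_const, smul_eq_mul]
      refine Nat.mul_le_mul_right _ ((card_small_subsets U t).trans ?_)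
      rw [pow_mul]
      exact Nat.pow_le_pow_left hU _
    rw [add_comm 1, pow_succ, mul_assoc] at g2
    exact Nat.le_of_mul_le_mul_left g2 (by positivity)
  have e4 : n * (R.filter (fun G => ¬ (code G).card ≤ t)).card ≤ 48 * L * K * N := by
    apply Nat.le_of_mul_le_mul_left (c := t + 1) _ (by omega)
    calc (t + 1) * (n * (R.filter (fun G => ¬ (code G).card ≤ t)).card)
        = n * ((t + 1) * (R.filter (fun G => ¬ (code G).card ≤ t)).card) := by ring
      _ ≤ n * (d * K * N) := Nat.mul_le_mul_left _ e2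
      _ = (n * d) * (K * N) := by ring
      _ ≤ (48 * L * (t + 1)) * (K * N) := Nat.mul_le_mul_right _ ht2
      _ = _ := by ring
  rw [← e1, mul_add, add_mul, one_mul, add_comm]
  exact Nat.add_le_add e4 e3

/-- A code for the `r`-neighbourhoods, `r = 1, 2`, with its mean size. -/
theorem exists_code {r d : ℕ} (hr : r = 1 ∨ r = 2) (hd : 80 ≤ d)
    (hn : 4 * d ^ 2 ≤ Fintype.card V) :
    ∃ (U : Type) (_ : Fintype U) (code : SimpleGraph V → Finset U),
      (∀ G G', IsReg G d → IsReg G' d → code G = code G' → ∀ v, RootedNbhdIso G G' r v v) ∧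
      ∑ G ∈ regs V d, (code G).card ≤ d * (6 * d ^ (2 * r)) * (regs V d).card ∧
      Fintype.card U + 1 ≤ Fintype.card V ^ 6 := by
  have hd8 : 8 * (d + 1) ≤ Fintype.card V := by nlinarith
  rcases hr with rfl | rfl
  · obtain ⟨code, h1, h2⟩ := exists_code_one (V := V) d
    refine ⟨_, inferInstance, code, h1, ?_, ?_⟩
    · refine le_trans (sum_le_sum (fun G hG => h2 G (mem_regs.1 hG))) ?_
      refine (sum_c3 hd8 (by omega)).trans (Nat.mul_le_mul_right _ ?_)
      rw [show d * (6 * d ^ (2 * 1)) = 6 * d * d ^ 2 by ring]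
      gcongr
      norm_num
    · simp only [Fintype.card_prod, Fintype.card_fin]
      set n := Fintype.card V
      have h1 : d ≤ n := by omega
      have h2 : n * (d * d) ≤ n ^ 3 := by
        calc n * (d * d) ≤ n * (n * n) := by gcongr
          _ = n ^ 3 := by ring
      have h3 : n ^ 3 < n ^ 6 := Nat.pow_lt_pow_right (by omega) (by norm_num)
      omega
  · obtain ⟨code, h1, h2⟩ := exists_code_two (V := V) d
    refine ⟨_, inferInstance, code, h1, ?_, ?_⟩
    · refine le_trans (sum_le_sum (fun G hG => h2 G (mem_regs.1 hG))) ?_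
      rw [sum_add_distrib, sum_add_distrib]
      have e3 := sum_c3 hd8 (by omega)
      have e4 := sum_c4 hd8 (by omega)
      have e5 := sum_c5 hd8 (by omega)
      have p1 : d ^ 2 ≤ d ^ 4 := Nat.pow_le_pow_right (by omega) (by norm_num)
      have p2 : d ^ 3 ≤ d ^ 4 := Nat.pow_le_pow_right (by omega) (by norm_num)
      calc _ ≤ 2 * d * d ^ 4 * (regs V d).card + (2 * d * d ^ 4 * (regs V d).card +
            2 * d * d ^ 4 * (regs V d).card) := by
            refine Nat.add_le_add (e3.trans ?_) (Nat.add_le_add (e4.trans ?_) e5) <;> gcongr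
        _ = _ := by ring
    · simp only [Fintype.card_sum, Fintype.card_prod, Fintype.card_fin]
      set n := Fintype.card V
      have h1 : d ≤ n := by omega
      have h1' : d - 1 ≤ n := by omega
      have h2 : n * (d * (d * (d - 1))) ≤ n ^ 5 := by
        calc n * (d * (d * (d - 1))) ≤ n * (n * (n * n)) := by gcongr
          _ = n ^ 4 := by ring
          _ ≤ n ^ 5 := Nat.pow_le_pow_right (by omega) (by norm_num)
      have h3 : n * (d * ((d - 1) * (d * (d - 1)))) ≤ n ^ 5 := by
        calc n * (d * ((d - 1) * (d * (d - 1)))) ≤ n * (n * (n * (n * n))) := by gcongr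
          _ = n ^ 5 := by ring
      have h4 : 0 < n ^ 5 := Nat.pow_pos (by omega)
      have h5 : 4 * n ^ 5 ≤ n ^ 6 := by
        rw [pow_succ n 5, mul_comm]
        apply Nat.mul_le_mul_left
        omega
      omega

end finite

theorem frac_bounds {X : Type} [Fintype X] (p q : X → Prop) {n K : ℕ} (hn : 0 < n) (x₀ : X)
    (hx₀ : p x₀) (A' N' : Finset X) (hN' : ∀ x, x ∈ N' ↔ p x) (hA' : ∀ x, p x → ¬ q x → x ∈ A')
    (h0 : n * A'.card ≤ K * N'.card) :
    1 - (K : ℝ) / n ≤ ({x | p x ∧ q x}.ncard : ℝ) / ({x | p x}.ncard : ℝ) ∧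
      ({x | p x ∧ q x}.ncard : ℝ) / ({x | p x}.ncard : ℝ) ≤ 1 := by
  have h : n * ((univ.filter p).filter (fun x => ¬ q x)).card ≤ K * (univ.filter p).card := by
    have : N' = univ.filter p := by
      ext x
      simp [hN']
    rw [← this]
    refine le_trans (Nat.mul_le_mul_left _ (card_le_card fun x hx => ?_)) h0
    exact hA' x ((hN' x).1 (mem_filter.1 hx).1) (mem_filter.1 hx).2
  have e1 : {x | p x ∧ q x}.ncard = ((univ.filter p).filter q).card := by
    rw [← Set.ncard_coe_finset]
    congr 1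
    ext G
    simp
  have e2 : {x | p x}.ncard = (univ.filter p).card := by
    rw [← Set.ncard_coe_finset]
    congr 1
    ext G
    simp
  have e3 := card_filter_add_card_filter_not (s := univ.filter p) q
  have e4 : 0 < (univ.filter p).card := card_pos.2 ⟨x₀, mem_filter.2 ⟨mem_univ _, hx₀⟩⟩
  rw [e1, e2]
  set N := (univ.filter p).card
  set A := ((univ.filter p).filter (fun x => ¬ q x)).card
  set B := ((univ.filter p).filter q).card
  have hN : (0 : ℝ) < N := by exact_mod_cast e4
  have hn' : (0 : ℝ) < n := by exact_mod_cast hn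
  have e3' : (B : ℝ) + A = N := by exact_mod_cast e3
  have h' : (n : ℝ) * A ≤ K * N := by exact_mod_cast h
  have hA : (0 : ℝ) ≤ A := Nat.cast_nonneg _
  constructor
  · rw [le_div_iff₀ hN]
    have : (A : ℝ) ≤ K / n * N := by
      rw [div_mul_eq_mul_div, le_div_iff₀ hn']
      linarith
    linarith
  · rw [div_le_one hN]
    linarith

set_option maxHeartbeats 400000 in
theorem no_partial_recovery (δ : ℝ) (hδ : 0 < δ) (r : ℕ) (hr : r = 1 ∨ r = 2) (d : ℕ → ℕ)
    (heven : ∀ᶠ n : ℕ in atTop, Even (n * d n)) (hd : Tendsto d atTop atTop)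
    (hsmall : Tendsto (fun n : ℕ => (d n : ℝ) ^ (2 * r) / n) atTop (𝓝 0))
    (est : ∀ n : ℕ, SimpleGraph (Fin n) → SimpleGraph (Fin n))
    (hest : ∀ (n : ℕ) (G G' : SimpleGraph (Fin n)),
      (∀ v, RootedNbhdIso G G' r v v) → est n G = est n G')
    (hsize : ∀ (n : ℕ) (G : SimpleGraph (Fin n)), (est n G).edgeSet.ncard ≤ n * d n) :
    Tendsto (fun n : ℕ =>
      (({G : SimpleGraph (Fin n) | IsReg G (d n) ∧ ∀ σ : Equiv.Perm (Fin n),
          ({e ∈ (est n G).edgeSet | e.map σ ∈ G.edgeSet}.ncard : ℝ) < δ * n * d n}.ncard : ℕ) : ℝ) /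
        (({G : SimpleGraph (Fin n) | IsReg G (d n)}.ncard : ℕ) : ℝ)) atTop (𝓝 1) := by
  obtain ⟨L, hL⟩ : ∃ L : ℕ, max 8 (1 / δ) ≤ (L : ℝ) := exists_nat_ge _
  have hL8 : 8 ≤ L := by exact_mod_cast (le_max_left _ _).trans hL
  have hLδ : 1 ≤ (L : ℝ) * δ := (div_le_iff₀ hδ).1 ((le_max_right _ _).trans hL)
  have h3 : Tendsto (fun n : ℕ => 1 - (48 * L * 6 * ((d n : ℝ) ^ (2 * r) / n) + 1 / (n : ℝ))) atTop
      (𝓝 1) := by
    have := ((hsmall.const_mul (48 * (L : ℝ) * 6)).add
      tendsto_one_div_atTop_nhds_zero_nat).const_sub 1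
    simpa using this
  have h4 : ∀ᶠ n : ℕ in atTop, (d n : ℝ) ^ (2 * r) / n < 1 / 4 :=
    hsmall.eventually (gt_mem_nhds (by norm_num))
  refine tendsto_of_tendsto_of_tendsto_of_le_of_le' h3 tendsto_const_nhds ?_ ?_
  all_goals
    filter_upwards [heven, h4, hd.eventually_ge_atTop (48 * L), eventually_ge_atTop (4 ^ (4 * L)),
      eventually_gt_atTop 0] with n hn1 hn2 hn3 hn4 hn0
    have hn' : (0 : ℝ) < n := by exact_mod_cast hn0
    have e1 : 4 * d n ^ 2 ≤ n := by
      rw [div_lt_iff₀ hn'] at hn2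
      have e2 : d n ^ 2 ≤ d n ^ (2 * r) := Nat.pow_le_pow_right (by omega) (by omega)
      have e3 : (4 : ℝ) * (d n : ℝ) ^ (2 * r) ≤ n := by linarith
      have e4 : 4 * d n ^ (2 * r) ≤ n := by exact_mod_cast e3
      omega
    obtain ⟨G₀, hG₀⟩ := exists_regular n (d n) (by nlinarith) hn1
    obtain ⟨U, _, code, c1, c2, c3⟩ := exists_code (V := Fin n) (d := d n) hr (by omega)
      (by simpa using e1)
    have c4 := count_est code (est n) (fun G G' hG hG' h => hest n G G' (c1 G G' hG hG' h))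
      (by simpa using hsize n) _ L c2 hL8 hn3 (by simpa using e1) (by simpa using hn4) c3
    rw [Fintype.card_fin] at c4
    have c5 := frac_bounds (fun G : SimpleGraph (Fin n) => IsReg G (d n))
      (fun G => ∀ σ : Equiv.Perm (Fin n),
        ({e ∈ (est n G).edgeSet | e.map σ ∈ G.edgeSet}.ncard : ℝ) < δ * n * d n)
      hn0 G₀ hG₀ _ _ (fun G => mem_regs) (by
        intro G hG1 hG2
        push Not at hG2
        obtain ⟨σ, hσ⟩ := hG2
        refine (@mem_filter _ _ (_) _ _).2 ⟨mem_regs.2 hG1, σ, ?_⟩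
        have : ((n * d n : ℕ) : ℝ) ≤
            ((L * {e ∈ (est n G).edgeSet | e.map σ ∈ G.edgeSet}.ncard : ℕ) : ℝ) := by
          push_cast
          have p1 : (0 : ℝ) ≤ (n : ℝ) * d n := by positivity
          have p2 : (0 : ℝ) ≤ (L : ℝ) := by positivity
          calc (n : ℝ) * d n ≤ (L * δ) * (n * d n) := le_mul_of_one_le_left p1 hLδ
            _ = L * (δ * n * d n) := by ring
            _ ≤ _ := mul_le_mul_of_nonneg_left hσ p2
        exact_mod_cast this) c4
    have c6 : (1 : ℝ) - (48 * L * 6 * ((d n : ℝ) ^ (2 * r) / n) + 1 / (n : ℝ)) =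
        1 - ((48 * L * (6 * d n ^ (2 * r)) + 1 : ℕ) : ℝ) / n := by
      push_cast
      field_simp
    first
      | exact c5.2
      | exact c6.le.trans c5.1

end Pool.Agent.Lib.MP_c07d40_pr
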