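import Pool.Agent.Lib.MP_c07d40_pr.Defs

/-!
The switching lemma for regular graphs.
-/

namespace Pool.Agent.Lib.MP_c07d40_pr

open Finset
open scoped Classical

variable {V : Type} [Fintype V]

/-- neighbours as a finset -/
noncomputable def nb (G : SimpleGraph V) (v : V) : Finset V := univ.filter (fun w => G.Adj v w)

@[simp] theorem mem_nb {G : SimpleGraph V} {v w : V} : w ∈ nb G v ↔ G.Adj v w := by
  simp [nb]

theorem isReg_iff {G : SimpleGraph V} {d : ℕ} : IsReg G d ↔ ∀ v, (nb G v).card = d := by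
  have h : ∀ v, (G.neighborSet v).ncard = (nb G v).card := by
    intro v
    rw [← Set.ncard_coe_finset]
    congr 1
    ext w
    simp
  simp [IsReg, h]

/-- all `d`-regular graphs -/
noncomputable def regs (V : Type) [Fintype V] (d : ℕ) : Finset (SimpleGraph V) :=
  univ.filter (fun G => IsReg G d)

@[simp] theorem mem_regs {G : SimpleGraph V} {d : ℕ} : G ∈ regs V d ↔ IsReg G d := by
  simp [regs]

/-- remove `ac`, `xy`, add `ax`, `cy` -/
def switch (G : SimpleGraph V) (a c x y : V) : SimpleGraph V where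
  Adj u w := u ≠ w ∧ ((G.Adj u w ∧ s(u, w) ≠ s(a, c) ∧ s(u, w) ≠ s(x, y)) ∨
    s(u, w) = s(a, x) ∨ s(u, w) = s(c, y))
  symm := ⟨by
    intro u w h
    rw [Sym2.eq_swap (a := w) (b := u)]
    exact ⟨h.1.symm, h.2.imp (fun h => ⟨h.1.symm, h.2⟩) id⟩⟩
  loopless := ⟨fun u h => h.1 rfl⟩

/-- admissible switching -/
structure Sw (G : SimpleGraph V) (a c x y : V) : Prop where
  ac : G.Adj a c
  xy : G.Adj x y
  xa : x ≠ a
  nax : ¬ G.Adj a x
  yc : y ≠ c
  ncy : ¬ G.Adj c y

omit [Fintype V] in
theorem switch_adj {G : SimpleGraph V} {a c x y u w : V} :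
    (switch G a c x y).Adj u w ↔ u ≠ w ∧ ((G.Adj u w ∧ s(u, w) ≠ s(a, c) ∧ s(u, w) ≠ s(x, y)) ∨
    s(u, w) = s(a, x) ∨ s(u, w) = s(c, y)) := Iff.rfl

omit [Fintype V] in
theorem Sw.xc {G : SimpleGraph V} {a c x y : V} (h : Sw G a c x y) : x ≠ c := by
  rintro rfl; exact h.nax h.ac

omit [Fintype V] in
theorem Sw.ya {G : SimpleGraph V} {a c x y : V} (h : Sw G a c x y) : y ≠ a := by
  rintro rfl; exact h.ncy h.ac.symm

omit [Fintype V] in
theorem switch_switch {G : SimpleGraph V} {a c x y : V} (h : Sw G a c x y) :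
    switch (switch G a c x y) a x c y = G := by
  have h1 := h.ac
  have h2 := h.xy
  have h3 := h.nax
  have h4 := h.ncy
  have h1' := h1.symm
  have h2' := h2.symm
  have h3' : ¬ G.Adj x a := fun h => h3 h.symm
  have h4' : ¬ G.Adj y c := fun h => h4 h.symm
  ext u w
  simp only [switch_adj, Sym2.eq_iff, ne_eq]
  constructor
  · rintro ⟨huw, h5 | h5 | h5⟩
    · tauto
    · rcases h5 with ⟨rfl, rfl⟩ | ⟨rfl, rfl⟩ <;> assumption
    · rcases h5 with ⟨rfl, rfl⟩ | ⟨rfl, rfl⟩ <;> assumption
  · intro huw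
    refine ⟨huw.ne, ?_⟩
    by_cases e1 : (u = a ∧ w = c ∨ u = c ∧ w = a)
    · exact Or.inr (Or.inl e1)
    by_cases e2 : (u = x ∧ w = y ∨ u = y ∧ w = x)
    · exact Or.inr (Or.inr e2)
    refine Or.inl ⟨⟨huw.ne, Or.inl ⟨huw, e1, e2⟩⟩, ?_, ?_⟩
    · rintro (⟨rfl, rfl⟩ | ⟨rfl, rfl⟩) <;> contradiction
    · rintro (⟨rfl, rfl⟩ | ⟨rfl, rfl⟩) <;> contradiction

omit [Fintype V] in
theorem card_insert_erase {s : Finset V} {p q : V} (hp : p ∉ s) (hq : q ∈ s) :
    (insert p (s.erase q)).card = s.card := by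
  rw [card_insert_of_notMem (by simp [hp]), card_erase_add_one hq]

theorem switch_reg {G : SimpleGraph V} {a c x y : V} {d : ℕ} (hG : IsReg G d)
    (h : Sw G a c x y) : IsReg (switch G a c x y) d := by
  rw [isReg_iff] at hG ⊢
  have h1 := h.ac
  have h2 := h.xy
  have h3 := h.nax
  have h4 := h.ncy
  have h1' := h1.symm
  have h2' := h2.symm
  have h3' : ¬ G.Adj x a := fun h => h3 h.symm
  have h4' : ¬ G.Adj y c := fun h => h4 h.symm
  have n1 := h1.ne
  have n2 := h2.ne
  have n3 := h.xa
  have n4 := h.yc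
  have n5 := h.xc
  have n6 := h.ya
  intro u
  by_cases ha : u = a
  · subst ha
    rw [← hG u, ← card_insert_erase (s := nb G u) (p := x) (q := c) (by simpa) (by simpa)]
    congr 1
    ext w
    have := G.loopless.irrefl u
    simp only [mem_nb, switch_adj, Sym2.eq_iff, ne_eq, mem_insert, mem_erase]
    grind
  by_cases hc : u = c
  · subst hc
    rw [← hG u, ← card_insert_erase (s := nb G u) (p := y) (q := a) (by simpa) (by simpa)]
    congr 1
    ext w
    have := G.loopless.irrefl u
    simp only [mem_nb, switch_adj, Sym2.eq_iff, ne_eq, mem_insert, mem_erase]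
    grind
  by_cases hx : u = x
  · subst hx
    rw [← hG u, ← card_insert_erase (s := nb G u) (p := a) (q := y) (by simpa) (by simpa)]
    congr 1
    ext w
    have := G.loopless.irrefl u
    simp only [mem_nb, switch_adj, Sym2.eq_iff, ne_eq, mem_insert, mem_erase]
    grind
  by_cases hy : u = y
  · subst hy
    rw [← hG u, ← card_insert_erase (s := nb G u) (p := c) (q := x) (by simpa) (by simpa)]
    congr 1
    ext w
    have := G.loopless.irrefl u
    simp only [mem_nb, switch_adj, Sym2.eq_iff, ne_eq, mem_insert, mem_erase]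
    grind
  · rw [← hG u]
    congr 1
    ext w
    have := G.loopless.irrefl u
    simp only [mem_nb, switch_adj, Sym2.eq_iff, ne_eq]
    grind

/-- `G` contains all the edges in `H` -/
def Has (G : SimpleGraph V) (H : Finset (Sym2 V)) : Prop := ∀ e ∈ H, e ∈ G.edgeSet

theorem card_pairs_le (H : Finset (Sym2 V)) :
    (univ.filter (fun p : V × V => s(p.1, p.2) ∈ H)).card ≤ 2 * H.card := by
  refine card_le_mul_card_image_of_maps_to (f := fun p : V × V => s(p.1, p.2)) (t := H)
    (fun p hp => by simpa using hp) 2 ?_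
  intro e _
  induction e using Sym2.ind with
  | _ u w =>
    calc _ ≤ ({(u, w), (w, u)} : Finset (V × V)).card := by
          apply card_le_card
          rintro ⟨p, q⟩ hp
          simp only [mem_filter, Sym2.eq_iff] at hp
          simp only [mem_insert, mem_singleton, Prod.mk.injEq]
          exact hp.2
      _ ≤ 2 := card_le_two

theorem card_adj_pairs {G : SimpleGraph V} {d : ℕ} (hG : IsReg G d) (S : Finset V) :
    (univ.filter (fun p : V × V => p.1 ∈ S ∧ G.Adj p.1 p.2)).card = S.card * d := by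
  rw [isReg_iff] at hG
  have : univ.filter (fun p : V × V => p.1 ∈ S ∧ G.Adj p.1 p.2) =
      S.biUnion (fun u => (nb G u).map ⟨fun w => (u, w), fun _ _ h => by simpa using h⟩) := by
    ext ⟨p, q⟩
    simp
  rw [this, card_biUnion]
  · simp [hG]
  · intro u _ w _ huw
    simp only [Function.onFun, disjoint_left, mem_map, mem_nb, Function.Embedding.coeFn_mk]
    rintro _ ⟨q, _, rfl⟩ ⟨q', _, h⟩
    exact huw (by simpa using (Prod.mk.inj h).1.symm)

theorem card_adj_pairs' {G : SimpleGraph V} {d : ℕ} (hG : IsReg G d) (S : Finset V) :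
    (univ.filter (fun p : V × V => p.2 ∈ S ∧ G.Adj p.1 p.2)).card = S.card * d := by
  rw [← card_adj_pairs hG S]
  apply card_bij (fun p _ => p.swap)
  · rintro ⟨p, q⟩ h
    simp only [mem_filter, mem_univ, true_and, Prod.swap] at h ⊢
    exact ⟨h.1, h.2.symm⟩
  · rintro ⟨p, q⟩ _ ⟨p', q'⟩ _ h
    simpa [and_comm] using h
  · rintro ⟨p, q⟩ h
    refine ⟨(q, p), ?_, rfl⟩
    simp only [mem_filter, mem_univ, true_and] at h ⊢
    exact ⟨h.1, h.2.symm⟩

theorem card_good_ge {G : SimpleGraph V} {d : ℕ} (hG : IsReg G d) {a c : V} (hac : G.Adj a c)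
    (H : Finset (Sym2 V)) :
    Fintype.card V * d ≤
      (univ.filter (fun p : V × V => Sw G a c p.1 p.2 ∧ s(p.1, p.2) ∉ H)).card +
        (2 * ((d + 1) * d) + 2 * H.card) := by
  have hG' := isReg_iff.1 hG
  have e0 := card_adj_pairs hG univ
  have e1 := card_adj_pairs hG (insert a (nb G a))
  have e2 := card_adj_pairs' hG (insert c (nb G c))
  have e3 := card_pairs_le H
  rw [card_insert_of_notMem (by simp), hG'] at e1 e2
  rw [card_univ] at e0
  rw [← e0]
  calc _ ≤ ((univ.filter (fun p : V × V => Sw G a c p.1 p.2 ∧ s(p.1, p.2) ∉ H)) ∪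
        ((univ.filter (fun p : V × V => p.1 ∈ insert a (nb G a) ∧ G.Adj p.1 p.2)) ∪
        (univ.filter (fun p : V × V => p.2 ∈ insert c (nb G c) ∧ G.Adj p.1 p.2)) ∪
        (univ.filter (fun p : V × V => s(p.1, p.2) ∈ H)))).card := by
        apply card_le_card
        rintro ⟨x, y⟩ h
        simp only [mem_filter, mem_univ, true_and, mem_union, mem_insert, mem_nb] at h ⊢
        by_cases h1 : s(x, y) ∈ H
        · exact Or.inr (Or.inr h1)
        by_cases h2 : x = a ∨ G.Adj a x
        · exact Or.inr (Or.inl (Or.inl ⟨h2, h⟩))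
        by_cases h3 : y = c ∨ G.Adj c y
        · exact Or.inr (Or.inl (Or.inr ⟨h3, h⟩))
        push Not at h2 h3
        exact Or.inl ⟨⟨hac, h, h2.1, h2.2, h3.1, h3.2⟩, h1⟩
    _ ≤ _ := by
        refine (card_union_le _ _).trans (Nat.add_le_add_left ?_ _)
        refine (card_union_le _ _).trans (Nat.add_le_add ?_ e3)
        refine (card_union_le _ _).trans ?_
        rw [e1, e2]
        omega

omit [Fintype V] in
theorem switch_has {G : SimpleGraph V} {a c x y : V} {H : Finset (Sym2 V)} (hH : Has G H)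
    (h1 : s(a, c) ∉ H) (h2 : s(x, y) ∉ H) : Has (switch G a c x y) H := by
  intro e he
  have h3 := hH e he
  induction e using Sym2.ind with
  | _ u w =>
    rw [SimpleGraph.mem_edgeSet] at h3 ⊢
    refine ⟨h3.ne, Or.inl ⟨h3, ?_, ?_⟩⟩
    · intro h; exact h1 (h ▸ he)
    · intro h; exact h2 (h ▸ he)

/-- The switching lemma. -/
theorem switching {d : ℕ} (hd : 8 * (d + 1) ≤ Fintype.card V) (H : Finset (Sym2 V))
    (hH : 8 * H.card ≤ Fintype.card V * d) (a c : V) (hac : s(a, c) ∉ H) :
    Fintype.card V * ((regs V d).filter (fun G => Has G H ∧ G.Adj a c)).card ≤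
      2 * d * ((regs V d).filter (fun G => Has G H)).card := by
  set n := Fintype.card V with hn
  set A := (regs V d).filter (fun G => Has G H ∧ G.Adj a c) with hA
  set B := (regs V d).filter (fun G => Has G H) with hB
  let P : Finset (Σ _ : SimpleGraph V, V × V) :=
    A.sigma (fun G => univ.filter (fun p : V × V => Sw G a c p.1 p.2 ∧ s(p.1, p.2) ∉ H))
  let Q : Finset (Σ _ : SimpleGraph V, V × V) :=
    B.sigma (fun G => nb G a ×ˢ nb G c)
  have hQ : Q.card = B.card * (d * d) := by
    simp only [Q, card_sigma, card_product]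
    rw [sum_congr rfl (g := fun _ => d * d), sum_const, smul_eq_mul]
    intro G hG
    have := isReg_iff.1 (mem_regs.1 (mem_filter.1 hG).1)
    rw [this, this]
  have hP : A.card * (n * d) ≤ 2 * P.card := by
    simp only [P, card_sigma]
    rw [mul_sum, ← smul_eq_mul, ← sum_const]
    apply sum_le_sum
    intro G hG
    have hG' := mem_filter.1 hG
    have := card_good_ge (mem_regs.1 hG'.1) hG'.2.2 H
    rw [← hn] at this
    have h2 : 8 * ((d + 1) * d) ≤ n * d := by
      calc 8 * ((d + 1) * d) = (8 * (d + 1)) * d := by ring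
        _ ≤ n * d := Nat.mul_le_mul_right _ hd
    omega
  have hPQ : P.card ≤ Q.card := by
    apply card_le_card_of_injOn (fun t => ⟨switch t.1 a c t.2.1 t.2.2, t.2⟩)
    · rintro ⟨G, x, y⟩ ht
      simp only [P, Q, A, B, coe_sigma, Set.mem_sigma_iff, mem_coe, mem_filter, mem_univ,
        true_and, mem_regs, mem_product, mem_nb] at ht ⊢
      obtain ⟨⟨h1, h2, h3⟩, h4, h5⟩ := ht
      refine ⟨⟨switch_reg h1 h4, switch_has h2 hac h5⟩, ?_, ?_⟩
      · exact ⟨h4.xa.symm, Or.inr (Or.inl rfl)⟩
      · exact ⟨h4.yc.symm, Or.inr (Or.inr rfl)⟩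
    · rintro ⟨G, x, y⟩ ht ⟨G', x', y'⟩ ht' h
      simp only [P, A, coe_sigma, Set.mem_sigma_iff, mem_coe, mem_filter, mem_univ,
        true_and, mem_regs] at ht ht'
      simp only [Sigma.mk.injEq, heq_eq_eq, Prod.mk.injEq] at h
      obtain ⟨h1, rfl, rfl⟩ := h
      have e1 := switch_switch ht.2.1
      have e2 := switch_switch ht'.2.1
      rw [h1, e2] at e1
      subst e1
      rfl
  rcases Nat.eq_zero_or_pos d with rfl | hd0
  · have : A = ∅ := by
      rw [eq_empty_iff_forall_notMem]
      intro G hG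
      have hG' := mem_filter.1 hG
      have h0 := isReg_iff.1 (mem_regs.1 hG'.1) a
      rw [card_eq_zero] at h0
      have : c ∈ nb G a := by simpa using hG'.2.2
      simp [h0] at this
    simp [this]
  · apply Nat.le_of_mul_le_mul_right _ hd0
    calc n * A.card * d = A.card * (n * d) := by ring
      _ ≤ 2 * P.card := hP
      _ ≤ 2 * (B.card * (d * d)) := by rw [← hQ]; omega
      _ = 2 * d * B.card * d := by ring

/-- Iterated switching: a fixed set of `k` edges is present with probability at most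
`(2d/n)^k`. -/
theorem switching_iter {d : ℕ} (hd : 8 * (d + 1) ≤ Fintype.card V) (H : Finset (Sym2 V))
    (hH : 8 * H.card ≤ Fintype.card V * d) :
    Fintype.card V ^ H.card * ((regs V d).filter (fun G => Has G H)).card ≤
      (2 * d) ^ H.card * (regs V d).card := by
  induction H using Finset.induction_on with
  | empty => simp [Has]
  | insert e H he ih =>
    rw [card_insert_of_notMem he] at hH ⊢
    have ih' := ih (by omega)
    induction e using Sym2.ind with
    | _ a c =>
      have h1 := switching hd H (by omega) a c he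
      have h2 : (regs V d).filter (fun G => Has G (insert s(a, c) H)) =
          (regs V d).filter (fun G => Has G H ∧ G.Adj a c) := by
        apply filter_congr
        intro G _
        simp [Has, and_comm]
      rw [h2, pow_succ, pow_succ]
      calc _ = Fintype.card V ^ H.card * (Fintype.card V *
            ((regs V d).filter (fun G => Has G H ∧ G.Adj a c)).card) := by ring
        _ ≤ Fintype.card V ^ H.card * (2 * d * ((regs V d).filter (fun G => Has G H)).card) :=
            Nat.mul_le_mul_left _ h1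
        _ = 2 * d * (Fintype.card V ^ H.card * ((regs V d).filter (fun G => Has G H)).card) := by
            ring
        _ ≤ 2 * d * ((2 * d) ^ H.card * (regs V d).card) := Nat.mul_le_mul_left _ ih'
        _ = _ := by ring

/-- Lower bound for the number of regular graphs. -/
theorem card_regs_ge {d : ℕ} (hd : 8 * (d + 1) ≤ Fintype.card V) (G₀ : SimpleGraph V)
    (hG₀ : IsReg G₀ d) (k : ℕ) (hk : 8 * k ≤ Fintype.card V * d) :
    Fintype.card V ^ k ≤ (2 * d) ^ k * (regs V d).card := by
  have e0 := card_adj_pairs hG₀ univ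
  let E : Finset (Sym2 V) := univ.filter (fun e => e ∈ G₀.edgeSet)
  have e1 := card_pairs_le E
  have e2 : univ.filter (fun p : V × V => s(p.1, p.2) ∈ E) =
      univ.filter (fun p : V × V => p.1 ∈ (univ : Finset V) ∧ G₀.Adj p.1 p.2) := by
    apply filter_congr
    intro p _
    simp [E]
  rw [e2, e0, card_univ] at e1
  obtain ⟨H, hHE, hHk⟩ := exists_subset_card_eq (s := E) (n := k) (by omega)
  have h := switching_iter hd H (by omega)
  rw [hHk] at h
  refine le_trans ?_ h
  have : 1 ≤ ((regs V d).filter (fun G => Has G H)).card := by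
    apply card_pos.2
    refine ⟨G₀, ?_⟩
    simp only [mem_filter, mem_regs]
    refine ⟨hG₀, fun e he => ?_⟩
    simpa [E] using hHE he
  exact Nat.le_mul_of_pos_right _ this

/-- Summed form of the switching lemma. -/
theorem switching_sum {ι : Type} {d : ℕ} (hd : 8 * (d + 1) ≤ Fintype.card V) (S : Finset ι)
    (H : ι → Finset (Sym2 V)) (a c : ι → V) (hH : ∀ i ∈ S, 8 * (H i).card ≤ Fintype.card V * d)
    (hac : ∀ i ∈ S, s(a i, c i) ∉ H i) (M : ℕ)
    (hM : ∀ G, IsReg G d → (S.filter (fun i => Has G (H i))).card ≤ Fintype.card V * M) :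
    ∑ G ∈ regs V d, (S.filter (fun i => Has G (H i) ∧ G.Adj (a i) (c i))).card ≤
      2 * d * M * (regs V d).card := by
  have hn : 0 < Fintype.card V := by omega
  apply Nat.le_of_mul_le_mul_left _ hn
  have e1 : ∑ G ∈ regs V d, (S.filter (fun i => Has G (H i) ∧ G.Adj (a i) (c i))).card =
      ∑ i ∈ S, ((regs V d).filter (fun G => Has G (H i) ∧ G.Adj (a i) (c i))).card := by
    simp only [card_filter]
    exact sum_comm
  have e2 : ∑ G ∈ regs V d, (S.filter (fun i => Has G (H i))).card =
      ∑ i ∈ S, ((regs V d).filter (fun G => Has G (H i))).card := by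
    simp only [card_filter]
    exact sum_comm
  rw [e1, mul_sum]
  calc _ ≤ ∑ i ∈ S, 2 * d * ((regs V d).filter (fun G => Has G (H i))).card :=
        sum_le_sum (fun i hi => switching hd (H i) (hH i hi) (a i) (c i) (hac i hi))
    _ = 2 * d * ∑ G ∈ regs V d, (S.filter (fun i => Has G (H i))).card := by
        rw [e2, mul_sum]
    _ ≤ 2 * d * ∑ G ∈ regs V d, Fintype.card V * M := by
        apply Nat.mul_le_mul_left
        exact sum_le_sum (fun G hG => hM G (mem_regs.1 hG))
    _ = _ := by
        rw [sum_const, smul_eq_mul]; ring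

end Pool.Agent.Lib.MP_c07d40_pr
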